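import Pool.Agent.Helper5.NE.Sys

/-!
# The square function bound: the colouring
-/

set_option linter.unusedSectionVars false

namespace Helper5.NE

open Finset Helper5.CR Helper27.SG

section
variable {V E X : Type} [Fintype V] [DecidableEq V] [Fintype E] [DecidableEq E] [Fintype X]
  [DecidableEq X]

theorem qq_nonneg (C : CSys V E X) (u : V) : 0 ≤ qq C u := Finset.sum_nonneg fun _ _ => sq_nonneg _

/-- the norm of a row -/
noncomputable def nn (C : CSys V E X) (u : V) : ℝ := Real.sqrt (qq C u)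

theorem nn_nonneg (C : CSys V E X) (u : V) : 0 ≤ nn C u := Real.sqrt_nonneg _

theorem nn_sq (C : CSys V E X) (u : V) : nn C u ^ 2 = qq C u := Real.sq_sqrt (qq_nonneg C u)

theorem nn_le (C : CSys V E X) (u : V) : nn C u ≤ 3 * rr C u := by
  unfold nn
  rw [Real.sqrt_le_left (by positivity)]
  exact qq_le C u

/-- the coefficients -/
noncomputable def co (C : CSys V E X) (u v : V) : ℝ := (W C u v : ℝ) / (2 * nn C u)

/-- the amplitudes -/
noncomputable def be (C : CSys V E X) (u : V) : ℝ := nn C u / (48 * rr C u)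

theorem be_le (C : CSys V E X) (u : V) : 0 ≤ be C u ∧ be C u ≤ 2 / 5 := by
  unfold be
  have h1 := nn_nonneg C u
  have h2 := nn_le C u
  refine ⟨by positivity, ?_⟩
  rcases Nat.eq_zero_or_pos (rr C u) with h | h
  · rw [h]; norm_num
  · have h3 : (0 : ℝ) < rr C u := by exact_mod_cast h
    rw [div_le_iff₀ (by positivity)]
    linarith

theorem co_sq (C : CSys V E X) (u : V) : ∑ v, co C u v ^ 2 ≤ 1 / 4 := by
  unfold co
  have h1 : ∑ v, ((W C u v : ℝ) / (2 * nn C u)) ^ 2 = qq C u / (4 * qq C u) := by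
    simp only [div_pow]
    rw [← Finset.sum_div]
    unfold qq
    rw [mul_pow, nn_sq]
    unfold qq
    norm_num
  rw [h1]
  rcases (qq_nonneg C u).eq_or_lt with h | h
  · rw [← h]; norm_num
  · rw [div_le_iff₀ (by positivity)]
    linarith

theorem co_row (C : CSys V E X) (u : V) : ∑ v, (W C u v : ℝ) * co C u v = nn C u / 2 := by
  unfold co
  have h1 : ∀ v, (W C u v : ℝ) * ((W C u v : ℝ) / (2 * nn C u)) =
      (W C u v : ℝ) ^ 2 / (2 * nn C u) := by intro v; ring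
  rw [Finset.sum_congr rfl (fun v _ => h1 v), ← Finset.sum_div]
  have h2 : ∑ v, (W C u v : ℝ) ^ 2 = nn C u ^ 2 := (nn_sq C u).symm
  rw [h2]
  rcases (nn_nonneg C u).eq_or_lt with h | h
  · rw [← h]; norm_num
  · field_simp

theorem third_nn (C : CSys V E X)
    (hu : ∀ e f, C.src e = C.src f → C.tgt e = C.tgt f → e = f)
    (hu' : ∀ e f, C.src e = C.tgt f → C.tgt e = C.src f → False) (v : V) :
    ∑ y ∈ fl C v, co C v (ot C y.1 y.2) * co C v (fa C y.1 y.2) * co C v (fb C y.1 y.2) ≤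
      nn C v / 8 := by
  have h1 := third_le C hu hu' v (co C v)
  have h2 : (∑ j, co C v j ^ 2) ^ 3 ≤ (1 / 4) ^ 3 :=
    pow_le_pow_left₀ (Finset.sum_nonneg fun _ _ => sq_nonneg _) (co_sq C v) 3
  have h3 := rr_le_qq C v
  rw [← nn_sq] at h3
  have h4 := nn_nonneg C v
  apply le_of_sq_le_sq _ (by positivity)
  refine h1.trans ?_
  have h5 : (rr C v : ℝ) * (∑ j, co C v j ^ 2) ^ 3 ≤ nn C v ^ 2 * (1 / 4) ^ 3 :=
    mul_le_mul h3 h2 (by positivity) (by positivity)
  refine h5.trans (le_of_eq ?_)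
  ring

/-- the total gain -/
noncomputable def gain (C : CSys V E X) : ℝ := ∑ v, qq C v / rr C v

theorem sum_total (C : CSys V E X)
    (hu : ∀ e f, C.src e = C.src f → C.tgt e = C.tgt f → e = f)
    (hu' : ∀ e f, C.src e = C.tgt f → C.tgt e = C.src f → False) :
    ∑ y : V → Bool, ∑ x, pol (C.src (C.e₁ x)) (C.tgt (C.e₁ x)) (C.src (C.e₂ x)) (C.tgt (C.e₂ x))
      (mn (co C) (be C) y) ≤
      (3 / 8 * Fintype.card X - 1 / 4000 * gain C) * Fintype.card (V → Bool) := by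
  rw [Finset.sum_comm]
  have h0 : (0 : ℝ) ≤ Fintype.card (V → Bool) := Nat.cast_nonneg _
  refine (Finset.sum_le_sum fun x _ => sum_pol_mn (co_sq C) (be_le C) (C.loop (C.e₁ x)) (C.h1 x)
    (C.h2 x) (C.h3 x) (C.h4 x) (C.loop (C.e₂ x))).trans ?_
  rw [← Finset.sum_mul]
  refine mul_le_mul_of_nonneg_right ?_ h0
  have e1 : ∑ x, gv C (fun u v => be C u * co C u v) x = -(1 / 2) * ∑ u, be C u * nn C u := by
    have h := sum_W C (fun u v => be C u * co C u v)
    have h2 : ∀ u, ∑ v, (W C u v : ℝ) * (be C u * co C u v) = (1 / 2) * (be C u * nn C u) := by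
      intro u
      have h3 : ∀ v, (W C u v : ℝ) * (be C u * co C u v) = be C u * ((W C u v : ℝ) * co C u v) := by
        intro v; ring
      rw [Finset.sum_congr rfl (fun v _ => h3 v), ← Finset.mul_sum, co_row]
      ring
    rw [Finset.sum_congr rfl (fun u _ => h2 u), ← Finset.mul_sum] at h
    linarith
  have e2 : ∑ x, (be C (C.src (C.e₁ x)) * (co C (C.src (C.e₁ x)) (C.tgt (C.e₁ x)) *
        co C (C.src (C.e₁ x)) (C.src (C.e₂ x)) * co C (C.src (C.e₁ x)) (C.tgt (C.e₂ x))) +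
      be C (C.tgt (C.e₁ x)) * (co C (C.tgt (C.e₁ x)) (C.src (C.e₁ x)) *
        co C (C.tgt (C.e₁ x)) (C.src (C.e₂ x)) * co C (C.tgt (C.e₁ x)) (C.tgt (C.e₂ x))) +
      be C (C.src (C.e₂ x)) * (co C (C.src (C.e₂ x)) (C.tgt (C.e₂ x)) *
        co C (C.src (C.e₂ x)) (C.src (C.e₁ x)) * co C (C.src (C.e₂ x)) (C.tgt (C.e₁ x))) +
      be C (C.tgt (C.e₂ x)) * (co C (C.tgt (C.e₂ x)) (C.src (C.e₂ x)) *
        co C (C.tgt (C.e₂ x)) (C.src (C.e₁ x)) * co C (C.tgt (C.e₂ x)) (C.tgt (C.e₁ x)))) ≤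
      (1 / 8) * ∑ u, be C u * nn C u := by
    have h := sum_fl C (fun v y => be C v * (co C v (ot C y.1 y.2) * co C v (fa C y.1 y.2) *
      co C v (fb C y.1 y.2)))
    refine le_trans (le_of_eq ?_) (h.le.trans ?_)
    · refine Finset.sum_congr rfl fun x _ => ?_
      simp only [Fin.sum_univ_four, en, ot, fa, fb]
    · rw [Finset.mul_sum]
      refine Finset.sum_le_sum fun v _ => ?_
      rw [← Finset.mul_sum]
      have h2 := mul_le_mul_of_nonneg_left (third_nn C hu hu' v) (be_le C v).1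
      linarith
  have e3 : ∑ x, (be C (C.src (C.e₁ x)) ^ 2 + be C (C.tgt (C.e₁ x)) ^ 2 +
      be C (C.src (C.e₂ x)) ^ 2 + be C (C.tgt (C.e₂ x)) ^ 2) = ∑ v, rr C v * be C v ^ 2 := by
    have h := sum_fl C (fun v _ => be C v ^ 2)
    simp only [Fin.sum_univ_four, en, Finset.sum_const, nsmul_eq_mul] at h
    exact h
  rw [Finset.sum_add_distrib, Finset.sum_add_distrib, Finset.sum_add_distrib, ← Finset.mul_sum,
    ← Finset.mul_sum, ← Finset.mul_sum, e3]
  have e4 : ∑ x, (be C (C.src (C.e₁ x)) * co C (C.src (C.e₁ x)) (C.tgt (C.e₁ x)) +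
      be C (C.tgt (C.e₁ x)) * co C (C.tgt (C.e₁ x)) (C.src (C.e₁ x)) +
      (be C (C.src (C.e₂ x)) * co C (C.src (C.e₂ x)) (C.tgt (C.e₂ x)) +
      be C (C.tgt (C.e₂ x)) * co C (C.tgt (C.e₂ x)) (C.src (C.e₂ x))) -
      (be C (C.src (C.e₁ x)) * co C (C.src (C.e₁ x)) (C.src (C.e₂ x)) +
      be C (C.src (C.e₂ x)) * co C (C.src (C.e₂ x)) (C.src (C.e₁ x))) -
      (be C (C.src (C.e₁ x)) * co C (C.src (C.e₁ x)) (C.tgt (C.e₂ x)) +
      be C (C.tgt (C.e₂ x)) * co C (C.tgt (C.e₂ x)) (C.src (C.e₁ x))) -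
      (be C (C.tgt (C.e₁ x)) * co C (C.tgt (C.e₁ x)) (C.src (C.e₂ x)) +
      be C (C.src (C.e₂ x)) * co C (C.src (C.e₂ x)) (C.tgt (C.e₁ x))) -
      (be C (C.tgt (C.e₁ x)) * co C (C.tgt (C.e₁ x)) (C.tgt (C.e₂ x)) +
      be C (C.tgt (C.e₂ x)) * co C (C.tgt (C.e₂ x)) (C.tgt (C.e₁ x)))) =
      -(1 / 2) * ∑ u, be C u * nn C u := e1
  rw [e4]
  simp only [Finset.sum_const, card_univ, nsmul_eq_mul]
  have e5 : ∑ v, ((13 / 512 : ℝ) * (be C v * nn C v) - (19 / 32) * (rr C v * be C v ^ 2)) ≥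
      1 / 4000 * gain C := by
    unfold gain
    rw [Finset.mul_sum]
    refine Finset.sum_le_sum fun v _ => ?_
    unfold be
    rcases Nat.eq_zero_or_pos (rr C v) with h | h
    · rw [h]; norm_num
    · have h3 : (0 : ℝ) < rr C v := by exact_mod_cast h
      have h4 : nn C v / (48 * rr C v) * nn C v = (1 / 48) * (qq C v / rr C v) := by
        rw [← nn_sq]; field_simp
      have h5 : (rr C v : ℝ) * (nn C v / (48 * rr C v)) ^ 2 = (1 / 2304) * (qq C v / rr C v) := by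
        rw [← nn_sq]; field_simp; norm_num
      rw [h4, h5]
      have h6 : 0 ≤ qq C v / rr C v := div_nonneg (qq_nonneg C v) h3.le
      linarith
  rw [Finset.sum_sub_distrib, ← Finset.mul_sum, ← Finset.mul_sum] at e5
  linarith

/-- the colouring -/
theorem exists_col_sq (C : CSys V E X)
    (hu : ∀ e f, C.src e = C.src f → C.tgt e = C.tgt f → e = f)
    (hu' : ∀ e f, C.src e = C.tgt f → C.tgt e = C.src f → False) :
    ∃ col : V → Bool, ((∑ x, C.base col x : ℕ) : ℝ) ≤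
      3 / 8 * Fintype.card X - 1 / 4000 * gain C := by
  set P : (V → ℝ) → ℝ := fun z => ∑ x, pol (C.src (C.e₁ x)) (C.tgt (C.e₁ x)) (C.src (C.e₂ x))
    (C.tgt (C.e₂ x)) z with hPdef
  have hP : ∀ (z : V → ℝ) (v : V), P z = (1 + z v) / 2 * P (Function.update z v 1) +
      (1 - z v) / 2 * P (Function.update z v (-1)) := by
    intro z v
    simp only [hPdef]
    rw [Finset.mul_sum, Finset.mul_sum, ← Finset.sum_add_distrib]
    refine Finset.sum_congr rfl fun x _ => ?_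
    exact pol_affine (C.loop _) (C.h1 x) (C.h2 x) (C.h3 x) (C.h4 x) (C.loop _) z v
  have h2 := sum_total C hu hu'
  have h3 : ∃ y : V → Bool, P (mn (co C) (be C) y) ≤
      3 / 8 * Fintype.card X - 1 / 4000 * gain C := by
    by_contra hcon
    push Not at hcon
    have h4 : ∑ _y : V → Bool, (3 / 8 * (Fintype.card X : ℝ) - 1 / 4000 * gain C) <
        ∑ y : V → Bool, P (mn (co C) (be C) y) := by
      apply Finset.sum_lt_sum_of_nonempty
      · exact ⟨fun _ => true, mem_univ _⟩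
      · intro y _
        exact hcon y
    rw [Finset.sum_const, card_univ, nsmul_eq_mul] at h4
    linarith
  obtain ⟨y, hy⟩ := h3
  obtain ⟨col, hcol⟩ := exists_sign P hP (mn (co C) (be C) y) (abs_mn_le (co_sq C) (be_le C) y)
  refine ⟨col, le_trans (le_of_eq ?_) (hcol.trans hy)⟩
  simp only [hPdef]
  push_cast
  exact Finset.sum_congr rfl fun x _ => base_eq C col x

end

end Helper5.NE
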