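import Pool.Agent.Helper66.BD.GH2
import Pool.Agent.Helper81.BD.GP1
import Pool.Agent.Helper9.BD.Red

/-!
# Plane drawings of simple graphs have few edges
-/

noncomputable section

open Finset Helper5.CR Helper5.BD Classical Equiv Equiv.Perm

namespace Helper5.NE

/-- counting the cycles of a permutation with weights -/
theorem mul_nc_le {D : Type} [Fintype D] (π : Perm D) (ω : D → ℕ) (K : ℕ)
    (h : ∀ d, ∃ s : Finset D, (∀ e ∈ s, π.SameCycle d e) ∧ K ≤ ∑ e ∈ s, ω e) :
    K * nc π ≤ ∑ d, ω d := by
  have h1 := Finset.sum_partition (s := (Finset.univ : Finset D)) (SameCycle.setoid π) (f := ω)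
  rw [h1]
  have h2 : (Finset.univ : Finset D).image (Quotient.mk (SameCycle.setoid π)) = Finset.univ := by
    ext q
    simp only [Finset.mem_image, Finset.mem_univ, true_and, iff_true]
    exact Quotient.exists_rep q
  rw [h2]
  have h3 : nc π = (Finset.univ : Finset (Quotient (SameCycle.setoid π))).card := by
    rw [Finset.card_univ, nc, Nat.card_eq_fintype_card]
  rw [h3, mul_comm, ← smul_eq_mul, ← Finset.sum_const]
  refine Finset.sum_le_sum fun q _ => ?_
  obtain ⟨d, rfl⟩ := Quotient.exists_rep q
  obtain ⟨s, hs1, hs2⟩ := h d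
  refine hs2.trans (Finset.sum_le_sum_of_subset ?_)
  intro e he
  rw [Finset.mem_filter]
  exact ⟨Finset.mem_univ _, Quotient.sound (s := SameCycle.setoid π)
    (SameCycle.symm (hs1 e he))⟩

/-- A plane map of a simple graph has at most `7/2` times as many edges as vertices. -/
theorem plane_bound {D V : Type} [Fintype D] {σ α : Perm D} (hp : Planar σ α)
    (hα : ∀ d, α (α d) = d) (hne : ∀ d, α d ≠ d) (en : D → V)
    (hen : ∀ d d', en d = en d' ↔ σ.SameCycle d d') (hloop : ∀ d, en (α d) ≠ en d)
    (hpar : ∀ d d', en d = en d' → en (α d) = en (α d') → d = d') :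
    Fintype.card D ≤ 7 * nc σ := by
  set φ := σ * α with hφ
  have hφa : ∀ d, φ d = σ (α d) := fun d => rfl
  have hσ : ∀ d, en (σ d) = en d := fun d => ((hen d (σ d)).2 ⟨1, by simp⟩).symm
  have hφen : ∀ d, en (φ d) = en (α d) := fun d => by rw [hφa, hσ]
  have n1 : ∀ d, φ d ≠ d := by
    intro d h
    have h1 := hφen d
    rw [h] at h1
    exact hloop d h1.symm
  set K : D → Prop := fun d => σ d = d ∧ σ (α d) = α d with hK
  have hKα : ∀ d, K d → K (α d) := by
    rintro d ⟨h1, h2⟩
    refine ⟨h2, ?_⟩
    rw [hα]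
    exact h1
  have n2 : ∀ d, φ (φ d) = d → K d := by
    intro d h
    have h1 : en (α (φ d)) = en d := by
      rw [← hφen, h]
    have h2 : α d = φ d := by
      apply hpar
      · exact (hφen d).symm
      · rw [hα, h1]
    refine ⟨?_, ?_⟩
    · rw [hφa, ← h2, hα] at h
      exact h
    · rw [← hφa, ← h2]
  set ω : D → ℕ := fun d => if K d then 3 else 2 with hω
  have hω2 : ∀ d, 2 ≤ ω d := by
    intro d
    simp only [hω]
    split_ifs <;> omega
  have hF : 6 * nc φ ≤ ∑ d, ω d := by
    refine mul_nc_le φ ω 6 (fun d => ?_)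
    by_cases hd : K d
    · refine ⟨{d, α d}, ?_, ?_⟩
      · intro e he
        rw [Finset.mem_insert, Finset.mem_singleton] at he
        rcases he with rfl | rfl
        · exact SameCycle.refl _ _
        · refine ⟨1, ?_⟩
          rw [zpow_one, hφa]
          exact hd.2
      · rw [Finset.sum_pair (hne d).symm]
        have e1 : ω d = 3 := if_pos hd
        have e2 : ω (α d) = 3 := if_pos (hKα d hd)
        omega
    · refine ⟨{d, φ d, φ (φ d)}, ?_, ?_⟩
      · intro e he
        simp only [Finset.mem_insert, Finset.mem_singleton] at he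
        rcases he with rfl | rfl | rfl
        · exact SameCycle.refl _ _
        · exact ⟨1, by simp⟩
        · refine ⟨2, ?_⟩
          rw [show (2 : ℤ) = 1 + 1 from rfl, zpow_add, zpow_one, Perm.mul_apply]
      · have h1 : d ≠ φ d := (n1 d).symm
        have h2 : d ≠ φ (φ d) := fun h => hd (n2 d h.symm)
        have h3 : φ d ≠ φ (φ d) := (n1 (φ d)).symm
        rw [Finset.sum_insert (by simp [h1, h2]), Finset.sum_insert (by simp [h3]),
          Finset.sum_singleton]
        have := hω2 d
        have := hω2 (φ d)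
        have := hω2 (φ (φ d))
        omega
  have hE : 2 * nc α ≤ ∑ _d : D, 1 := by
    refine mul_nc_le α (fun _ => 1) 2 (fun d => ?_)
    refine ⟨{d, α d}, ?_, ?_⟩
    · intro e he
      rw [Finset.mem_insert, Finset.mem_singleton] at he
      rcases he with rfl | rfl
      · exact SameCycle.refl _ _
      · exact ⟨1, by simp⟩
    · rw [Finset.sum_const, smul_eq_mul, mul_one, Finset.card_pair (hne d).symm]
  have hκ : (univ.filter K).card ≤ nc σ := by
    have h3 : nc σ = (Finset.univ : Finset (Quotient (SameCycle.setoid σ))).card := by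
      rw [Finset.card_univ, nc, Nat.card_eq_fintype_card]
    rw [h3]
    refine Finset.card_le_card_of_injOn (fun d => Quotient.mk (SameCycle.setoid σ) d)
      (fun d _ => Finset.mem_coe.2 (Finset.mem_univ _)) ?_
    intro d hd e he hde
    have hd' : σ d = d := (Finset.mem_filter.1 (Finset.mem_coe.1 hd)).2.1
    have hs : σ.SameCycle d e := Quotient.exact hde
    obtain ⟨n, hn⟩ := hs
    rw [← hn]
    exact (zpow_apply_eq_self_of_apply_eq_self hd' n).symm
  have hsum : ∑ d, ω d = 2 * Fintype.card D + (univ.filter K).card := by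
    have e1 : ∀ d, ω d = 2 + (if K d then 1 else 0) := by
      intro d
      simp only [hω]
      split_ifs <;> rfl
    rw [Finset.sum_congr rfl (fun d _ => e1 d), Finset.sum_add_distrib, ← Finset.card_filter,
      Finset.sum_const, Finset.card_univ, smul_eq_mul]
    ring
  have heul : nc σ + nc α + nc φ = Nat.card D + 2 * ncomp σ α := hp
  rw [Nat.card_eq_fintype_card] at heul
  simp only [Finset.sum_const, Finset.card_univ, smul_eq_mul, mul_one] at hE
  omega

variable {V E : Type} [Fintype E] {src tgt : E → V}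

/-- Edges of a good drawing without common interior points. -/
theorem plane_part (P : PreDrawing src tgt) (hG : P.Good) (hne : ∀ e, src e ≠ tgt e)
    (hs1 : ∀ e f, src e = src f → tgt e = tgt f → e = f)
    (hs2 : ∀ e f, src e = tgt f → tgt e = src f → False) (A : Finset E) (S : Finset V)
    (hA : ∀ e ∈ A, src e ∈ S ∧ tgt e ∈ S)
    (hcr : ∀ e ∈ A, ∀ f ∈ A, e ≠ f → ∀ x, x ∈ ipts P e → x ∉ ipts P f) :
    2 * A.card ≤ 7 * S.card := by
  obtain ⟨P', j, hj⟩ := exists_pull (src' := fun e : {e // e ∈ A} => src e.1)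
    (tgt' := fun e : {e // e ∈ A} => tgt e.1) P hne Subtype.val Subtype.val_injective
    (fun e => Or.inl ⟨rfl, rfl⟩)
  have hcount : ∀ (p : {e // e ∈ A}) (x : P.X), (ipts P' p).count (j x) =
      (ipts P p.1).count x := by
    intro p x
    rw [(hj p).count_eq, List.count_map_of_injective _ _ j.injective]
  have hpass : ∀ x', P'.passes x' ≤ 1 := by
    intro x'
    obtain ⟨x, rfl⟩ := j.surjective x'
    have e1 : P'.passes (j x) = ∑ p : {e // e ∈ A}, (ipts P p.1).count x := by
      unfold PreDrawing.passes
      exact Finset.sum_congr rfl fun p _ => hcount p x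
    rw [e1]
    by_cases hex : ∃ p : {e // e ∈ A}, x ∈ ipts P p.1
    · obtain ⟨p, hp⟩ := hex
      have hz : ∀ q ∈ (univ : Finset {e // e ∈ A}), q ≠ p → (ipts P q.1).count x = 0 := by
        intro q _ hqp
        rw [List.count_eq_zero]
        exact hcr p.1 p.2 q.1 q.2 (fun h => hqp (Subtype.ext h.symm)) x hp
      rw [Finset.sum_eq_single p hz (fun h => absurd (mem_univ _) h)]
      exact List.nodup_iff_count_le_one.1 (hG.self _) x
    · push Not at hex
      rw [Finset.sum_eq_zero (fun p _ => List.count_eq_zero.2 (hex p))]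
      exact zero_le_one
  obtain ⟨D, _, σ, α, en, c, hpl, hα, hαne, hen, hends, hall, hcc, hcα⟩ :=
    exists_plane_map_of P' (fun p => hne p.1) hpass (exists_reduced P')
  have hsrc : ∀ p, en (c p) = src p.1 := fun p => (hends p).1
  have htgt : ∀ p, en (α (c p)) = tgt p.1 := fun p => (hends p).2
  have h1 : Fintype.card D ≤ 7 * nc σ := by
    refine plane_bound hpl hα hαne en hen ?_ ?_
    · intro d
      obtain ⟨p, rfl | rfl⟩ := hall d
      · rw [hsrc, htgt]
        exact (hne _).symm
      · rw [hα, hsrc, htgt]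
        exact hne _
    · intro d d' he1 he2
      obtain ⟨p, rfl | rfl⟩ := hall d <;> obtain ⟨q, rfl | rfl⟩ := hall d'
      · rw [hsrc, hsrc] at he1
        rw [htgt, htgt] at he2
        rw [Subtype.ext (hs1 _ _ he1 he2)]
      · rw [hsrc, htgt] at he1
        rw [hα, hsrc, htgt] at he2
        exact (hs2 _ _ he1 he2).elim
      · rw [hsrc, htgt] at he1
        rw [hα, hsrc, htgt] at he2
        exact (hs2 _ _ he2 he1).elim
      · rw [htgt, htgt] at he1
        rw [hα, hα, hsrc, hsrc] at he2
        rw [Subtype.ext (hs1 _ _ he2 he1)]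
  have h2 : nc σ ≤ S.card := by
    have h3 : nc σ = (Finset.univ : Finset (Quotient (SameCycle.setoid σ))).card := by
      rw [Finset.card_univ, nc, Nat.card_eq_fintype_card]
    rw [h3]
    have hlift : ∀ a b : D, (SameCycle.setoid σ) a b → en a = en b := fun a b h => (hen a b).2 h
    refine Finset.card_le_card_of_injOn (fun q => Quotient.lift en hlift q) ?_ ?_
    · intro q _
      obtain ⟨d, rfl⟩ := Quotient.exists_rep q
      obtain ⟨p, rfl | rfl⟩ := hall d
      · show en (c p) ∈ (S : Set V)
        rw [hsrc]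
        exact Finset.mem_coe.2 (hA _ p.2).1
      · show en (α (c p)) ∈ (S : Set V)
        rw [htgt]
        exact Finset.mem_coe.2 (hA _ p.2).2
    · intro q _ q' _ hqq
      obtain ⟨d, rfl⟩ := Quotient.exists_rep q
      obtain ⟨d', rfl⟩ := Quotient.exists_rep q'
      exact Quotient.sound ((hen d d').1 hqq)
  have h3 : 2 * A.card ≤ Fintype.card D := by
    have h4 : Fintype.card ({e // e ∈ A} × Bool) = 2 * A.card := by
      rw [Fintype.card_prod, Fintype.card_coe, Fintype.card_bool, mul_comm]
    rw [← h4]
    refine Fintype.card_le_of_injective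
      (fun p : {e // e ∈ A} × Bool => if p.2 then α (c p.1) else c p.1) ?_
    rintro ⟨p, s⟩ ⟨q, t⟩ h
    cases s <;> cases t
    · exact Prod.ext (hcc h) rfl
    · exact (hcα _ _ h).elim
    · exact (hcα _ _ h.symm).elim
    · exact Prod.ext (hcc (α.injective h)) rfl
  omega

end Helper5.NE
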