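import Mathlib

/-!
# Random subsets: from a linear bound to a cubic bound
-/

open Finset

namespace Helper5.NE

section
variable {V ι : Type} [Fintype V] [DecidableEq V]

theorem card_powerset_between {T S : Finset V} (h : T ⊆ S) :
    2 ^ T.card * (S.powerset.filter (fun R => T ⊆ R)).card = 2 ^ S.card := by
  rw [← Finset.Icc_eq_filter_powerset, Finset.card_Icc_finset h, ← pow_add,
    Nat.add_sub_cancel' (Finset.card_le_card h)]

/-- each member of the family lies in the random subset with probability `2 ^ (-c)` -/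
theorem sum_powerset_card (I : Finset ι) (T : ι → Finset V) (c : ℕ) (hT : ∀ i ∈ I, (T i).card = c)
    (S : Finset V) :
    2 ^ c * ∑ R ∈ S.powerset, (I.filter (fun i => T i ⊆ R)).card =
      2 ^ S.card * (I.filter (fun i => T i ⊆ S)).card := by
  have h1 : ∑ R ∈ S.powerset, (I.filter (fun i => T i ⊆ R)).card =
      ∑ i ∈ I, (S.powerset.filter (fun R => T i ⊆ R)).card := by
    simp only [Finset.card_filter]
    rw [Finset.sum_comm]
  rw [h1, Finset.mul_sum, Finset.card_filter, Finset.mul_sum]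
  refine Finset.sum_congr rfl fun i hi => ?_
  by_cases h : T i ⊆ S
  · rw [if_pos h, mul_one, ← hT i hi, card_powerset_between h]
  · rw [if_neg h, mul_zero, mul_eq_zero]
    right
    rw [Finset.card_eq_zero, Finset.filter_eq_empty_iff]
    intro R hR hTR
    exact h (hTR.trans (Finset.mem_powerset.1 hR))

theorem sum_powerset_size (S : Finset V) :
    2 * ∑ R ∈ S.powerset, R.card = 2 ^ S.card * S.card := by
  have h := sum_powerset_card (ι := V) univ (fun v => {v}) 1 (fun v _ => Finset.card_singleton v) S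
  have e : ∀ R : Finset V, (univ.filter (fun v => ({v} : Finset V) ⊆ R)).card = R.card := by
    intro R
    congr 1
    ext v
    simp
  simpa only [e, pow_one] using h

variable {κ : Type}

/-- Sampling `j` times with probability `1/2`. -/
theorem sample (F : Finset ι) (T : ι → Finset V) (hT : ∀ i ∈ F, (T i).card = 2)
    (X : Finset κ) (U : κ → Finset V) (hU : ∀ x ∈ X, (U x).card = 4)
    (h0 : ∀ S : Finset V, 2 * (F.filter (fun i => T i ⊆ S)).card ≤
      2 * (X.filter (fun x => U x ⊆ S)).card + 7 * S.card) (j : ℕ) (S : Finset V) :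
    2 * 4 ^ j * (F.filter (fun i => T i ⊆ S)).card ≤
      2 * (X.filter (fun x => U x ⊆ S)).card + 7 * 8 ^ j * S.card := by
  induction j generalizing S with
  | zero => simpa using h0 S
  | succ j ih =>
    have h1 := Finset.sum_le_sum (s := S.powerset) (fun R _ => ih R)
    rw [Finset.sum_add_distrib, ← Finset.mul_sum, ← Finset.mul_sum, ← Finset.mul_sum] at h1
    have a1 := sum_powerset_card F T 2 hT S
    have a2 := sum_powerset_card X U 4 hU S
    have a3 := sum_powerset_size S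
    have hpos : 0 < 2 ^ S.card := by positivity
    refine Nat.le_of_mul_le_mul_left ?_ hpos
    calc 2 ^ S.card * (2 * 4 ^ (j + 1) * (F.filter (fun i => T i ⊆ S)).card)
        = 2 * 4 ^ (j + 1) * (2 ^ S.card * (F.filter (fun i => T i ⊆ S)).card) := by ring
      _ = 2 * 4 ^ (j + 1) *
          (2 ^ 2 * ∑ R ∈ S.powerset, (F.filter (fun i => T i ⊆ R)).card) := by rw [a1]
      _ = 16 * (2 * 4 ^ j * ∑ R ∈ S.powerset, (F.filter (fun i => T i ⊆ R)).card) := by ring
      _ ≤ 16 * (2 * ∑ R ∈ S.powerset, (X.filter (fun x => U x ⊆ R)).card +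
          7 * 8 ^ j * ∑ R ∈ S.powerset, R.card) := Nat.mul_le_mul_left _ h1
      _ = 2 * (2 ^ 4 * ∑ R ∈ S.powerset, (X.filter (fun x => U x ⊆ R)).card) +
          7 * 8 ^ (j + 1) * (2 * ∑ R ∈ S.powerset, R.card) := by ring
      _ = 2 ^ S.card * (2 * (X.filter (fun x => U x ⊆ S)).card +
          7 * 8 ^ (j + 1) * S.card) := by rw [a2, a3]; ring

/-- The cubic bound. -/
theorem cubic {m N n : ℕ} (h : ∀ j : ℕ, 2 * 4 ^ j * m ≤ 2 * N + 7 * 8 ^ j * n)
    (h2 : m ≤ 2 * N) : m ^ 3 ≤ 400 * (n ^ 2 * N) := by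
  rcases Nat.eq_zero_or_pos m with hm | hm
  · rw [hm]; simp
  have hn : 0 < n := by
    by_contra hn
    have hn0 : n = 0 := by omega
    have h3 := h (N + 1)
    rw [hn0, mul_zero, add_zero] at h3
    have h4 : N + 1 < 4 ^ (N + 1) := Nat.lt_pow_self (by norm_num)
    have h5 : 4 ^ (N + 1) ≤ 4 ^ (N + 1) * m := Nat.le_mul_of_pos_right _ hm
    nlinarith
  by_cases hc : m < 6 * n
  · have h3 : m ^ 2 ≤ (6 * n) ^ 2 := Nat.pow_le_pow_left hc.le 2
    calc m ^ 3 = m ^ 2 * m := by ring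
      _ ≤ (6 * n) ^ 2 * (2 * N) := Nat.mul_le_mul h3 h2
      _ = 72 * (n ^ 2 * N) := by ring
      _ ≤ 400 * (n ^ 2 * N) := Nat.mul_le_mul_right _ (by norm_num)
  · push Not at hc
    -- the largest `j` with `6 * 2 ^ j * n ≤ m`
    have hex : ∃ j, m < 6 * 2 ^ (j + 1) * n := by
      refine ⟨m, ?_⟩
      have h3 : m + 1 < 2 ^ (m + 1) := Nat.lt_pow_self (by norm_num)
      have h4 : 2 ^ (m + 1) ≤ 2 ^ (m + 1) * n := Nat.le_mul_of_pos_right _ hn
      nlinarith
    classical
    obtain ⟨j, hj1, hj2⟩ : ∃ j, 6 * 2 ^ j * n ≤ m ∧ m < 6 * 2 ^ (j + 1) * n := by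
      refine ⟨Nat.find hex, ?_, Nat.find_spec hex⟩
      rcases Nat.eq_zero_or_pos (Nat.find hex) with h0 | h0
      · rw [h0]; simpa using hc
      · have h5 := Nat.find_min hex (m := Nat.find hex - 1) (by omega)
        rw [Nat.sub_add_cancel h0] at h5
        exact Nat.le_of_not_lt h5
    have hj := h j
    set Q := 2 ^ j with hQ
    have e4 : (4 : ℕ) ^ j = Q ^ 2 := by
      rw [hQ, ← pow_mul, mul_comm, pow_mul]; norm_num
    have e8 : (8 : ℕ) ^ j = Q ^ 3 := by
      rw [hQ, ← pow_mul, mul_comm, pow_mul]; norm_num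
    have e2 : (2 : ℕ) ^ (j + 1) = 2 * Q := by rw [hQ, pow_succ]; ring
    rw [e4, e8] at hj
    rw [e2] at hj2
    have a1 : 6 * (Q ^ 3 * n) ≤ Q ^ 2 * m := by
      calc 6 * (Q ^ 3 * n) = Q ^ 2 * (6 * Q * n) := by ring
        _ ≤ Q ^ 2 * m := Nat.mul_le_mul_left _ hj1
    -- `5 Q² m ≤ 12 N`
    have a2 : 5 * (Q ^ 2 * m) ≤ 12 * N := by nlinarith
    have a3 : m ^ 2 ≤ (12 * (Q * n)) ^ 2 := Nat.pow_le_pow_left (by nlinarith) 2
    have a4 : m ^ 3 * 5 ≤ 144 * (n ^ 2 * (5 * (Q ^ 2 * m))) := by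
      calc m ^ 3 * 5 = m ^ 2 * (5 * m) := by ring
        _ ≤ (12 * (Q * n)) ^ 2 * (5 * m) := Nat.mul_le_mul_right _ a3
        _ = 144 * (n ^ 2 * (5 * (Q ^ 2 * m))) := by ring
    have a5 : 144 * (n ^ 2 * (5 * (Q ^ 2 * m))) ≤ 144 * (n ^ 2 * (12 * N)) :=
      Nat.mul_le_mul_left _ (Nat.mul_le_mul_left _ a2)
    nlinarith [Nat.zero_le (n ^ 2 * N)]

end

end Helper5.NE
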