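import Pool.Agent.Helper5.NE.Col

/-!
# The square function bound for drawings
-/

set_option linter.unusedSectionVars false
set_option linter.unusedSimpArgs false

namespace Helper5.NE

open Finset Helper5.CR Helper27.SG

section defs
variable {V E : Type} [Fintype E] {src tgt : E → V}

/-- `v` is an end of the edge `e` -/
def IsEnd (src tgt : E → V) (v : V) (e : E) : Prop := src e = v ∨ tgt e = v

/-- the number of crossings on the edges at `v` -/
noncomputable def load (P : PreDrawing src tgt) (v : V) : ℕ :=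
  Nat.card {x : P.X // P.passes x = 2 ∧ ∃ e, (∃ δ ∈ (P.route e).tail, P.pt δ = x) ∧
    IsEnd src tgt v e}

/-- the number of crossings of an edge at `u` with another edge at `v` -/
noncomputable def sep (P : PreDrawing src tgt) (u v : V) : ℕ :=
  Nat.card {x : P.X // P.passes x = 2 ∧ ∃ e f, e ≠ f ∧ (∃ δ ∈ (P.route e).tail, P.pt δ = x) ∧
    (∃ δ ∈ (P.route f).tail, P.pt δ = x) ∧ IsEnd src tgt u e ∧ IsEnd src tgt v f}

/-- the number of crossings on the edges between `u` and `v` -/
noncomputable def own (P : PreDrawing src tgt) (u v : V) : ℕ :=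
  Nat.card {x : P.X // P.passes x = 2 ∧ ∃ e, (∃ δ ∈ (P.route e).tail, P.pt δ = x) ∧
    IsEnd src tgt u e ∧ IsEnd src tgt v e}

end defs

section abs
variable {V E X : Type} [Fintype V] [DecidableEq V] [Fintype E] [DecidableEq E] [Fintype X]
  [DecidableEq X]

/-- one end of each of the two edges -/
def SepC (C : CSys V E X) (x : X) (u v : V) : Prop :=
  ((C.src (C.e₁ x) = u ∨ C.tgt (C.e₁ x) = u) ∧ (C.src (C.e₂ x) = v ∨ C.tgt (C.e₂ x) = v)) ∨
  ((C.src (C.e₂ x) = u ∨ C.tgt (C.e₂ x) = u) ∧ (C.src (C.e₁ x) = v ∨ C.tgt (C.e₁ x) = v))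

/-- both ends of one edge -/
def OwnC (C : CSys V E X) (x : X) (u v : V) : Prop :=
  ((C.src (C.e₁ x) = u ∨ C.tgt (C.e₁ x) = u) ∧ (C.src (C.e₁ x) = v ∨ C.tgt (C.e₁ x) = v)) ∨
  ((C.src (C.e₂ x) = u ∨ C.tgt (C.e₂ x) = u) ∧ (C.src (C.e₂ x) = v ∨ C.tgt (C.e₂ x) = v))

theorem ite_iff {p q : Prop} {dp : Decidable p} {dq : Decidable q} (h : p ↔ q) :
    (@ite ℤ p dp 1 0) = (@ite ℤ q dq 1 0) := by
  by_cases hp : p
  · rw [if_pos hp, if_pos (h.1 hp)]
  · rw [if_neg hp, if_neg (fun hq => hp (h.2 hq))]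

theorem kap_aux {a b g h u v : V} (l1 : a ≠ b) (l2 : g ≠ h) (k1 : a ≠ g) (k2 : a ≠ h)
    (k3 : b ≠ g) (k4 : b ≠ h) (huv : u ≠ v) :
    dl a u * dl g v + dl g u * dl a v + (dl a u * dl h v + dl h u * dl a v) +
      (dl b u * dl g v + dl g u * dl b v) + (dl b u * dl h v + dl h u * dl b v) -
      (dl a u * dl b v + dl b u * dl a v) - (dl g u * dl h v + dl h u * dl g v) =
    (if ((a = u ∨ b = u) ∧ (g = v ∨ h = v)) ∨ ((g = u ∨ h = u) ∧ (a = v ∨ b = v)) then 1 else 0) -
    (if ((a = u ∨ b = u) ∧ (a = v ∨ b = v)) ∨ ((g = u ∨ h = u) ∧ (g = v ∨ h = v)) then 1 else 0)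
    := by
  unfold dl
  by_cases h1 : a = u
  · subst h1
    by_cases h2 : b = v
    · subst h2
      simp [l1, l1.symm, l2, l2.symm, k1, k1.symm, k2, k2.symm, k3, k3.symm, k4, k4.symm]
    · by_cases h3 : g = v
      · subst h3
        simp [h2, l1, l1.symm, l2, l2.symm, k1, k1.symm, k2, k2.symm, k3, k3.symm, k4, k4.symm]
      · by_cases h5 : h = v
        · subst h5
          simp [h2, h3, l1, l1.symm, l2, l2.symm, k1, k1.symm, k2, k2.symm, k3, k3.symm, k4,
            k4.symm]
        · simp [h2, h3, h5, huv, l1.symm, k1.symm, k2.symm]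
  · by_cases h2 : b = u
    · subst h2
      by_cases h4 : a = v
      · subst h4
        simp [l1, l1.symm, l2, l2.symm, k1, k1.symm, k2, k2.symm, k3, k3.symm, k4, k4.symm]
      · by_cases h3 : g = v
        · subst h3
          simp [h4, l1, l1.symm, l2, l2.symm, k1, k1.symm, k2, k2.symm, k3, k3.symm, k4, k4.symm]
        · by_cases h5 : h = v
          · subst h5
            simp [h4, h3, l1, l1.symm, l2, l2.symm, k1, k1.symm, k2, k2.symm, k3, k3.symm, k4,
              k4.symm]
          · simp [h4, h3, h5, huv, l1, k3.symm, k4.symm]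
    · by_cases h3 : g = u
      · subst h3
        by_cases h4 : h = v
        · subst h4
          simp [l1, l1.symm, l2, l2.symm, k1, k1.symm, k2, k2.symm, k3, k3.symm, k4, k4.symm]
        · by_cases h5 : a = v
          · subst h5
            simp [h4, l1, l1.symm, l2, l2.symm, k1, k1.symm, k2, k2.symm, k3, k3.symm, k4, k4.symm]
          · by_cases h6 : b = v
            · subst h6
              simp [h4, h5, l1, l1.symm, l2, l2.symm, k1, k1.symm, k2, k2.symm, k3, k3.symm, k4,
                k4.symm]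
            · simp [h4, h5, h6, huv, l2.symm, k1, k3]
      · by_cases h4 : h = u
        · subst h4
          by_cases h5 : g = v
          · subst h5
            simp [l1, l1.symm, l2, l2.symm, k1, k1.symm, k2, k2.symm, k3, k3.symm, k4, k4.symm]
          · by_cases h6 : a = v
            · subst h6
              simp [h5, l1, l1.symm, l2, l2.symm, k1, k1.symm, k2, k2.symm, k3, k3.symm, k4,
                k4.symm]
            · by_cases h7 : b = v
              · subst h7
                simp [h5, h6, l1, l1.symm, l2, l2.symm, k1, k1.symm, k2, k2.symm, k3, k3.symm, k4,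
                  k4.symm]
              · simp [h5, h6, h7, huv, l2, k2, k4]
        · simp [h1, h2, h3, h4]

open Classical in
theorem kap_eq (C : CSys V E X) (x : X) {u v : V} (huv : u ≠ v) :
    kap C x u v = (if SepC C x u v then 1 else 0) - (if OwnC C x u v then 1 else 0) := by
  refine (kap_aux (C.loop (C.e₁ x)) (C.loop (C.e₂ x)) (C.h1 x) (C.h2 x) (C.h3 x) (C.h4 x)
    huv).trans ?_
  exact congrArg₂ (· - ·) (ite_iff Iff.rfl) (ite_iff Iff.rfl)

theorem kap_self (C : CSys V E X) (x : X) (u : V) : kap C x u u = 0 := by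
  have l1 := C.loop (C.e₁ x)
  have l2 := C.loop (C.e₂ x)
  have k1 := C.h1 x
  have k2 := C.h2 x
  have k3 := C.h3 x
  have k4 := C.h4 x
  unfold kap dl
  generalize C.src (C.e₁ x) = a at *
  generalize C.tgt (C.e₁ x) = b at *
  generalize C.src (C.e₂ x) = g at *
  generalize C.tgt (C.e₂ x) = h at *
  by_cases h1 : a = u
  · subst h1
    simp [l1.symm, k1.symm, k2.symm]
  · by_cases h2 : b = u
    · subst h2
      simp [h1, k3.symm, k4.symm]
    · by_cases h3 : g = u
      · subst h3
        simp [h1, h2, l2.symm]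
      · simp [h1, h2, h3]

open Classical in
theorem W_eq (C : CSys V E X) {u v : V} (huv : u ≠ v) :
    W C u v = ((univ.filter (fun x => SepC C x u v)).card : ℤ) -
      (univ.filter (fun x => OwnC C x u v)).card := by
  unfold W
  rw [Finset.sum_congr rfl (fun x _ => kap_eq C x huv), Finset.sum_sub_distrib,
    Finset.card_filter, Finset.card_filter]
  push_cast
  rfl

theorem W_self (C : CSys V E X) (u : V) : W C u u = 0 := by
  unfold W
  exact Finset.sum_eq_zero fun x _ => kap_self C x u

theorem rr_eq (C : CSys V E X) (v : V) : rr C v = (univ.filter (fun x =>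
    (C.src (C.e₁ x) = v ∨ C.tgt (C.e₁ x) = v) ∨
      (C.src (C.e₂ x) = v ∨ C.tgt (C.e₂ x) = v))).card := by
  unfold rr
  rw [← Finset.card_image_of_injOn (f := Prod.fst) (s := fl C v)]
  · congr 1
    ext x
    unfold fl
    simp only [mem_image, mem_filter, mem_univ, true_and, Prod.exists, exists_and_right,
      exists_eq_right]
    constructor
    · rintro ⟨i, hi⟩
      fin_cases i <;> simp only [en] at hi
      · exact Or.inl (Or.inl hi)
      · exact Or.inl (Or.inr hi)
      · exact Or.inr (Or.inl hi)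
      · exact Or.inr (Or.inr hi)
    · rintro ((h | h) | (h | h))
      · exact ⟨0, h⟩
      · exact ⟨1, h⟩
      · exact ⟨2, h⟩
      · exact ⟨3, h⟩
  · intro y hy z hz hyz
    obtain ⟨x, i⟩ := y
    obtain ⟨x', j⟩ := z
    simp only at hyz
    subst hyz
    unfold fl at hy hz
    simp only [coe_filter, mem_univ, true_and, Set.mem_ofPred_eq] at hy hz
    have h0 : en C x i = en C x j := hy.trans hz.symm
    have l1 := C.loop (C.e₁ x)
    have l2 := C.loop (C.e₂ x)
    have k1 := C.h1 x
    have k2 := C.h2 x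
    have k3 := C.h3 x
    have k4 := C.h4 x
    have hi : i = j := by
      fin_cases i <;> fin_cases j <;> simp only [en] at h0 <;> first | rfl | (exfalso; first
        | exact l1 h0 | exact l1 h0.symm | exact l2 h0 | exact l2 h0.symm | exact k1 h0
        | exact k1 h0.symm | exact k2 h0 | exact k2 h0.symm | exact k3 h0 | exact k3 h0.symm
        | exact k4 h0 | exact k4 h0.symm)
    rw [hi]

end abs

section drawing
variable {V E : Type} [Fintype E] {src tgt : E → V}

theorem thru_ex (P : PreDrawing src tgt) (e : E) (x : P.X) :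
    (∃ δ ∈ (P.route e).tail, P.pt δ = x) ↔ P.thru e x := by
  unfold PreDrawing.thru
  rw [List.mem_map]

open Classical in
theorem card_sub (P : PreDrawing src tgt) (Q : P.X → Prop) (R : P.X2 → Prop)
    (h : ∀ x : P.X2, Q x.1 ↔ R x) :
    Nat.card {x : P.X // P.passes x = 2 ∧ Q x} = (univ.filter R).card := by
  rw [← Fintype.card_subtype, ← Nat.card_eq_fintype_card]
  refine Nat.card_congr ?_
  exact
    { toFun := fun x => ⟨⟨x.1, x.2.1⟩, (h ⟨x.1, x.2.1⟩).1 x.2.2⟩
      invFun := fun x => ⟨x.1.1, x.1.2, (h x.1).2 x.2⟩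
      left_inv := fun x => rfl
      right_inv := fun x => rfl }

variable [Fintype V] [DecidableEq V] [DecidableEq E]

theorem load_eq (P : PreDrawing src tgt) [DecidableEq P.X2] (hG : P.Good)
    (hne : ∀ e, src e ≠ tgt e) (v : V) :
    load P v = rr (P.toCSys hG hne) v := by
  rw [rr_eq]
  unfold load
  rw [card_sub P _ (fun x => (src (P.ed₁ hG x) = v ∨ tgt (P.ed₁ hG x) = v) ∨
      (src (P.ed₂ hG x) = v ∨ tgt (P.ed₂ hG x) = v))]
  · congr 1
    ext x
    simp only [mem_filter, mem_univ, true_and]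
    exact Iff.rfl
  · intro x
    constructor
    · rintro ⟨e, he, hv⟩
      rw [thru_ex, P.thru_iff hG] at he
      rcases he with rfl | rfl
      · exact Or.inl hv
      · exact Or.inr hv
    · rintro (h | h)
      · exact ⟨_, (thru_ex P _ _).2 (P.thru₁ hG x), h⟩
      · exact ⟨_, (thru_ex P _ _).2 (P.thru₂ hG x), h⟩

open Classical in
theorem sep_eq (P : PreDrawing src tgt) (hG : P.Good) (hne : ∀ e, src e ≠ tgt e) (u v : V) :
    sep P u v = (univ.filter (fun x => SepC (P.toCSys hG hne) x u v)).card := by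
  unfold sep
  refine (card_sub P _ (fun x => SepC (P.toCSys hG hne) x u v) ?_).trans ?_
  · intro x
    constructor
    · rintro ⟨e, f, hef, he, hf, hu, hv⟩
      rw [thru_ex, P.thru_iff hG] at he hf
      rcases he with rfl | rfl
      · rcases hf with rfl | rfl
        · exact absurd rfl hef
        · exact Or.inl ⟨hu, hv⟩
      · rcases hf with rfl | rfl
        · exact Or.inr ⟨hu, hv⟩
        · exact absurd rfl hef
    · rintro (⟨hu, hv⟩ | ⟨hu, hv⟩)
      · exact ⟨_, _, P.ed_ne hG x, (thru_ex P _ _).2 (P.thru₁ hG x),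
          (thru_ex P _ _).2 (P.thru₂ hG x), hu, hv⟩
      · exact ⟨_, _, (P.ed_ne hG x).symm, (thru_ex P _ _).2 (P.thru₂ hG x),
          (thru_ex P _ _).2 (P.thru₁ hG x), hu, hv⟩
  · congr 1

open Classical in
theorem own_eq (P : PreDrawing src tgt) (hG : P.Good) (hne : ∀ e, src e ≠ tgt e) (u v : V) :
    own P u v = (univ.filter (fun x => OwnC (P.toCSys hG hne) x u v)).card := by
  unfold own
  refine (card_sub P _ (fun x => OwnC (P.toCSys hG hne) x u v) ?_).trans ?_
  · intro x
    constructor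
    · rintro ⟨e, he, hu, hv⟩
      rw [thru_ex, P.thru_iff hG] at he
      rcases he with rfl | rfl
      · exact Or.inl ⟨hu, hv⟩
      · exact Or.inr ⟨hu, hv⟩
    · rintro (⟨hu, hv⟩ | ⟨hu, hv⟩)
      · exact ⟨_, (thru_ex P _ _).2 (P.thru₁ hG x), hu, hv⟩
      · exact ⟨_, (thru_ex P _ _).2 (P.thru₂ hG x), hu, hv⟩
  · congr 1

theorem qq_eq (P : PreDrawing src tgt) [DecidableEq P.X2] (hG : P.Good)
    (hne : ∀ e, src e ≠ tgt e) (v : V) :
    qq (P.toCSys hG hne) v = ∑ u ∈ univ.erase v, ((sep P v u : ℝ) - own P v u) ^ 2 := by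
  unfold qq
  rw [← Finset.add_sum_erase univ _ (mem_univ v), W_self]
  have : ∀ u ∈ univ.erase v, ((W (P.toCSys hG hne) v u : ℤ) : ℝ) ^ 2 =
      ((sep P v u : ℝ) - own P v u) ^ 2 := by
    intro u hu
    rw [W_eq _ (Finset.ne_of_mem_erase hu).symm, sep_eq P hG hne, own_eq P hG hne]
    push_cast
    congr!
  rw [Finset.sum_congr rfl this]
  simp

end drawing

/-- The square function bound. -/
theorem main (n : ℕ) (G : SimpleGraph (Fin n))
    (P : PreDrawing (fun e : Edge G => e.1.1) (fun e : Edge G => e.1.2)) (hs : P.Simple)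
    (ho : P.crossings = cr G) :
    (cr₂ G : ℝ) ≤ 3 / 8 * cr G -
      1 / 4000 * ∑ v, (∑ u ∈ univ.erase v, ((sep P v u : ℝ) - own P v u) ^ 2) / load P v := by
  classical
  have hne := edge_ne G
  have hG := P.good_of_optimal hne hs ho
  obtain ⟨col, hcol⟩ := exists_col_sq (P.toCSys hG hne)
    (fun e f h1 h2 => Subtype.ext (Prod.ext h1 h2))
    (fun e f h1 h2 => by
      have he := e.2.1
      have hf := f.2.1
      have h1' : e.1.1 = f.1.2 := h1
      have h2' : e.1.2 = f.1.1 := h2
      rw [h1', h2'] at he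
      exact absurd hf (lt_asymm he))
  obtain ⟨S, hS⟩ := exists_decomp P hG hne col
  have h1 : (cr₂ G : ℝ) ≤ ((∑ x, (P.toCSys hG hne).base col x : ℕ) : ℝ) := by
    exact_mod_cast (cr₂_le G S).trans hS
  refine h1.trans (hcol.trans (le_of_eq ?_))
  rw [P.card_X2, ho]
  unfold gain
  congr 2
  refine Finset.sum_congr rfl fun v _ => ?_
  rw [load_eq P hG hne, qq_eq P hG hne]

end Helper5.NE
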