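import Pool.Agent.Helper5.NE.MeanC
import Pool.Agent.Helper5.CR.B6

/-!
# The mean square bound: the corollary for all graphs
-/

set_option linter.unusedSectionVars false

namespace Helper5.NE

open Finset Helper5.CR

section drawing
variable {V E : Type} [Fintype E] {src tgt : E → V}

open Classical in
theorem cs_onEdge [Fintype V] (P : PreDrawing src tgt) (hG : P.Good) (hne : ∀ e, src e ≠ tgt e) :
    (2 * (P.crossings : ℝ)) ^ 2 ≤ P.crossedEdges * ∑ e, (onEdge P e : ℝ) ^ 2 := by
  have hXc : Fintype.card P.X2 = P.crossings := by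
    unfold PreDrawing.crossings
    exact Nat.card_eq_fintype_card.symm
  have hcs := sq_sum_le_card_mul_sum_sq (s := (P.toCSys hG hne).crossed)
    (f := fun e => (P.toCSys hG hne).k e)
  rw [(P.toCSys hG hne).sum_k_crossed (fun n => n) rfl, (P.toCSys hG hne).sum_k_univ,
    (P.toCSys hG hne).sum_k_crossed (fun n => n ^ 2) rfl, hXc] at hcs
  simp only [onEdge_eq P hG hne, P.crossedEdges_eq hG hne]
  exact_mod_cast hcs

end drawing

/-- The corollary by the Cauchy-Schwarz inequality. -/
theorem mean_edges (n : ℕ) (G : SimpleGraph (Fin n)) :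
    (cr₂ G : ℝ) ≤
      (3 / 8 - 1 / 1036800 * ((cr G : ℝ) / (Nat.card G.edgeSet : ℝ) ^ 2)) * cr G := by
  obtain ⟨P, hs, ho⟩ := exists_optimal G
  refine (mean_main n G P hs ho).trans ?_
  have hNr : (0 : ℝ) ≤ cr G := Nat.cast_nonneg _
  rcases Nat.eq_zero_or_pos (cr G) with h0 | h0
  · rw [h0]
    have : (0 : ℝ) ≤ 1 / 4147200 * ((∑ e, (onEdge P e : ℝ) ^ 2) / P.crossedEdges) := by positivity
    simpa using this
  have h1 : P.crossedEdges ≤ Nat.card G.edgeSet := by
    refine le_trans ?_ (card_Edge G)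
    unfold PreDrawing.crossedEdges
    exact Nat.card_le_card_of_injective Subtype.val Subtype.val_injective
  have hne := edge_ne G
  have hG := P.good_of_optimal hne hs ho
  have hcsr := cs_onEdge P hG hne
  rw [ho] at hcsr
  classical
  have h2N := P.card_le_crossedEdges hG hne
  rw [ho] at h2N
  have hpos : 0 < P.crossedEdges := by
    by_contra h
    have : P.crossedEdges = 0 := by omega
    rw [this] at h2N; simp at h2N; omega
  have h1r : (P.crossedEdges : ℝ) ≤ Nat.card G.edgeSet := by exact_mod_cast h1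
  have hposr : (0 : ℝ) < P.crossedEdges := by exact_mod_cast hpos
  have h3 : 4 * (cr G : ℝ) ^ 2 / (P.crossedEdges : ℝ) ^ 2 ≤
      (∑ e, (onEdge P e : ℝ) ^ 2) / P.crossedEdges := by
    rw [div_le_div_iff₀ (by positivity) hposr]
    nlinarith
  have h4 : 4 * (cr G : ℝ) ^ 2 / (Nat.card G.edgeSet : ℝ) ^ 2 ≤
      4 * (cr G : ℝ) ^ 2 / (P.crossedEdges : ℝ) ^ 2 :=
    div_le_div_of_nonneg_left (by positivity) (by positivity)
      (pow_le_pow_left₀ hposr.le h1r 2)
  have h5 : 1 / 1036800 * ((cr G : ℝ) / (Nat.card G.edgeSet : ℝ) ^ 2) * cr G =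
      1 / 4147200 * (4 * (cr G : ℝ) ^ 2 / (Nat.card G.edgeSet : ℝ) ^ 2) := by ring
  rw [sub_mul, h5]
  have := h4.trans h3
  linarith

end Helper5.NE
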