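import Pool.Agent.Helper5.NE.CrossA
import Pool.Agent.Helper5.NE.CrossB
import Pool.Agent.Helper5.NE.MeanD
import Pool.Agent.Helper5.NE.Final

/-!
# The crossing lemma for the crossed edges, and the bound by the number of crossed edges
-/

set_option linter.unusedSectionVars false

noncomputable section

open Finset Helper5.CR Helper5.BD Classical

namespace Helper5.NE

variable {V E : Type} [Fintype V] [Fintype E] {src tgt : E → V}

/-- the two ends of an edge -/
def ep (src tgt : E → V) (e : E) : Finset V := {src e, tgt e}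

/-- the four ends at a crossing -/
def xp (P : PreDrawing src tgt) (hG : P.Good) (x : P.X2) : Finset V :=
  ep src tgt (P.ed₁ hG x) ∪ ep src tgt (P.ed₂ hG x)

theorem ep_sub {S : Finset V} {e : E} : ep src tgt e ⊆ S ↔ src e ∈ S ∧ tgt e ∈ S := by
  unfold ep
  rw [Finset.insert_subset_iff, Finset.singleton_subset_iff]

theorem xp_sub (P : PreDrawing src tgt) (hG : P.Good) {S : Finset V} {x : P.X2} :
    xp P hG x ⊆ S ↔ ep src tgt (P.ed₁ hG x) ⊆ S ∧ ep src tgt (P.ed₂ hG x) ⊆ S := by
  unfold xp
  rw [Finset.union_subset_iff]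

theorem card_xp (P : PreDrawing src tgt) (hG : P.Good) (hne : ∀ e, src e ≠ tgt e) (x : P.X2) :
    (xp P hG x).card = 4 := by
  obtain ⟨h1, h2, h3, h4⟩ := P.adj_of_thru hG (P.ed_ne hG x) (P.thru₁ hG x) (P.thru₂ hG x)
  unfold xp ep
  rw [Finset.card_union_of_disjoint, Finset.card_pair (hne _), Finset.card_pair (hne _)]
  rw [Finset.disjoint_left]
  intro v hv hv'
  simp only [Finset.mem_insert, Finset.mem_singleton] at hv hv'
  rcases hv with rfl | rfl <;> rcases hv' with h | h
  · exact h1 h
  · exact h2 h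
  · exact h3 h
  · exact h4 h

/-- The planar bound for the crossed edges inside `S`. -/
theorem planar_bound (P : PreDrawing src tgt) (hG : P.Good) (hne : ∀ e, src e ≠ tgt e)
    (hs1 : ∀ e f, src e = src f → tgt e = tgt f → e = f)
    (hs2 : ∀ e f, src e = tgt f → tgt e = src f → False) (S : Finset V) :
    2 * ((P.toCSys hG hne).crossed.filter (fun e => ep src tgt e ⊆ S)).card ≤
      2 * ((univ : Finset P.X2).filter (fun x => xp P hG x ⊆ S)).card + 7 * S.card := by
  set F := (P.toCSys hG hne).crossed.filter (fun e => ep src tgt e ⊆ S) with hF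
  set XS := (univ : Finset P.X2).filter (fun x => xp P hG x ⊆ S) with hXS
  have h1 := plane_part P hG hne hs1 hs2 (F \ XS.image (P.ed₁ hG)) S ?_ ?_
  · have h2 : F.card ≤ (F \ XS.image (P.ed₁ hG)).card + (XS.image (P.ed₁ hG)).card := by
      exact Finset.card_le_card_sdiff_add_card
    have h3 : (XS.image (P.ed₁ hG)).card ≤ XS.card := Finset.card_image_le
    omega
  · intro e he
    rw [Finset.mem_sdiff, hF, Finset.mem_filter] at he
    exact ep_sub.1 he.1.2
  · intro e he f hf hef x hxe hxf
    rw [Finset.mem_sdiff] at he hf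
    have he1 : ep src tgt e ⊆ S := by
      have := he.1
      rw [hF, Finset.mem_filter] at this
      exact this.2
    have hf1 : ep src tgt f ⊆ S := by
      have := hf.1
      rw [hF, Finset.mem_filter] at this
      exact this.2
    have te : P.thru e x := hxe
    have tf : P.thru f x := hxf
    have hp : P.passes x = 2 := by
      have h4 := hG.simple x
      have h5 : 2 ≤ P.passes x := by
        rw [P.passes_eq hG]
        have h6 : ({e, f} : Finset E) ⊆ univ.filter (fun e => P.thru e x) := by
          intro a ha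
          rw [Finset.mem_insert, Finset.mem_singleton] at ha
          rw [Finset.mem_filter]
          rcases ha with rfl | rfl
          · exact ⟨mem_univ _, te⟩
          · exact ⟨mem_univ _, tf⟩
        have h7 := Finset.card_le_card h6
        rw [Finset.card_pair hef] at h7
        exact h7
      omega
    have t1 := (P.thru_iff hG ⟨x, hp⟩ e).1 te
    have t2 := (P.thru_iff hG ⟨x, hp⟩ f).1 tf
    have key : P.ed₁ hG ⟨x, hp⟩ = e ∧ P.ed₂ hG ⟨x, hp⟩ = f ∨
        P.ed₁ hG ⟨x, hp⟩ = f ∧ P.ed₂ hG ⟨x, hp⟩ = e := by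
      rcases t1 with t1 | t1 <;> rcases t2 with t2 | t2
      · exact absurd (t1.trans t2.symm) hef
      · exact Or.inl ⟨t1.symm, t2.symm⟩
      · exact Or.inr ⟨t2.symm, t1.symm⟩
      · exact absurd (t1.trans t2.symm) hef
    have hxS : (⟨x, hp⟩ : P.X2) ∈ XS := by
      rw [hXS, Finset.mem_filter]
      refine ⟨mem_univ _, (xp_sub P hG).2 ?_⟩
      rcases key with ⟨k1, k2⟩ | ⟨k1, k2⟩
      · rw [k1, k2]; exact ⟨he1, hf1⟩
      · rw [k1, k2]; exact ⟨hf1, he1⟩
    have him := Finset.mem_image_of_mem (P.ed₁ hG) hxS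
    rcases key with ⟨k1, -⟩ | ⟨k1, -⟩
    · rw [k1] at him
      exact he.2 him
    · rw [k1] at him
      exact hf.2 him

section abs
variable {X : Type} [DecidableEq V] [DecidableEq E] [Fintype X] [DecidableEq X]

theorem rr_pos_of (C : CSys V E X) (x : X) (i : Fin 4) : 0 < rr C (en C x i) := by
  unfold rr
  exact Finset.card_pos.2 ⟨(x, i), by simp [fl]⟩

theorem crossed_rr (C : CSys V E X) {e : E} (he : e ∈ C.crossed) :
    0 < rr C (C.src e) ∧ 0 < rr C (C.tgt e) := by
  unfold CSys.crossed at he
  rw [Finset.mem_filter] at he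
  obtain ⟨x, hx⟩ := Finset.card_pos.1 he.2
  rw [Finset.mem_filter] at hx
  rcases hx.2 with rfl | rfl
  · exact ⟨rr_pos_of C x 0, rr_pos_of C x 1⟩
  · exact ⟨rr_pos_of C x 2, rr_pos_of C x 3⟩

theorem crossed_le (C : CSys V E X) : C.crossed.card ≤ 2 * Fintype.card X := by
  rw [← C.sum_k_univ, ← C.sum_k_crossed (fun n => n) rfl, Finset.card_eq_sum_ones]
  refine Finset.sum_le_sum fun e he => ?_
  unfold CSys.crossed at he
  exact (Finset.mem_filter.1 he).2

end abs

/-- the number of vertices on crossed edges -/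
def loaded (P : PreDrawing src tgt) : ℕ := (univ.filter (fun v => 0 < load P v)).card

/-- The crossing lemma for the crossed edges. -/
theorem crossing_lemma (P : PreDrawing src tgt) (hG : P.Good) (hne : ∀ e, src e ≠ tgt e)
    (hs1 : ∀ e f, src e = src f → tgt e = tgt f → e = f)
    (hs2 : ∀ e f, src e = tgt f → tgt e = src f → False) :
    P.crossedEdges ^ 3 ≤ 400 * (loaded P ^ 2 * P.crossings) := by
  have hX : Fintype.card P.X2 = P.crossings := P.card_X2
  rw [P.crossedEdges_eq hG hne, ← hX]
  set C := P.toCSys hG hne with hC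
  set S : Finset V := univ.filter (fun v => 0 < load P v) with hS
  have hSm : ∀ v, v ∈ S ↔ 0 < rr C v := by
    intro v
    rw [hS, Finset.mem_filter, load_eq P hG hne, ← hC]
    simp
  have f1 : C.crossed.filter (fun e => ep src tgt e ⊆ S) = C.crossed := by
    rw [Finset.filter_eq_self]
    intro e he
    have := crossed_rr C he
    exact ep_sub.2 ⟨(hSm _).2 this.1, (hSm _).2 this.2⟩
  have f2 : (univ : Finset P.X2).filter (fun x => xp P hG x ⊆ S) = univ := by
    rw [Finset.filter_eq_self]
    intro x _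
    rw [xp_sub, ep_sub, ep_sub]
    exact ⟨⟨(hSm _).2 (rr_pos_of C x 0), (hSm _).2 (rr_pos_of C x 1)⟩,
      ⟨(hSm _).2 (rr_pos_of C x 2), (hSm _).2 (rr_pos_of C x 3)⟩⟩
  have key := sample C.crossed (ep src tgt) (fun e _ => Finset.card_pair (hne e))
    (univ : Finset P.X2) (xp P hG) (fun x _ => card_xp P hG hne x)
    (planar_bound P hG hne hs1 hs2)
  refine cubic (n := loaded P) (fun j => ?_) (crossed_le C)
  have h := key j S
  rw [f1, f2, Finset.card_univ] at h
  exact h

end Helper5.NE
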