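import Pool.Agent.Helper5.NE.CrossC

/-!
# The bound by the number of crossed edges, and a bound for all graphs
-/

noncomputable section

open Finset Helper5.CR Helper5.BD Classical

namespace Helper5.NE

theorem edge_s1 {n : ℕ} {G : SimpleGraph (Fin n)} (e f : Edge G) (h1 : e.1.1 = f.1.1)
    (h2 : e.1.2 = f.1.2) : e = f := Subtype.ext (Prod.ext h1 h2)

theorem edge_s2 {n : ℕ} {G : SimpleGraph (Fin n)} (e f : Edge G) (h1 : e.1.1 = f.1.2)
    (h2 : e.1.2 = f.1.1) : False := by
  have he := e.2.1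
  have hf := f.2.1
  rw [h1, h2] at he
  exact absurd hf (lt_asymm he)

/-- the gain is at least the number of vertices on crossed edges, over 4000 -/
theorem loaded_main (n : ℕ) (G : SimpleGraph (Fin n))
    (P : PreDrawing (fun e : Edge G => e.1.1) (fun e : Edge G => e.1.2)) (hs : P.Simple)
    (ho : P.crossings = cr G) :
    (cr₂ G : ℝ) ≤ 3 / 8 * cr G - 1 / 4000 * loaded P := by
  have hne := edge_ne G
  have hG := P.good_of_optimal hne hs ho
  refine (main n G P hs ho).trans ?_
  have h1 : (loaded P : ℝ) ≤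
      ∑ v, (∑ u ∈ univ.erase v, ((sep P v u : ℝ) - own P v u) ^ 2) / load P v := by
    unfold loaded
    rw [Finset.card_filter]
    push_cast
    refine Finset.sum_le_sum fun v _ => ?_
    have hq : (load P v : ℝ) ≤ ∑ u ∈ univ.erase v, ((sep P v u : ℝ) - own P v u) ^ 2 := by
      have h2 := rr_le_qq (P.toCSys hG hne) v
      rw [← load_eq P hG hne, qq_eq P hG hne] at h2
      convert h2
    by_cases hv : 0 < load P v
    · have hv' : (0 : ℝ) < load P v := by exact_mod_cast hv
      rw [if_pos hv, le_div_iff₀ hv', one_mul]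
      exact hq
    · rw [if_neg hv]
      exact div_nonneg ((Nat.cast_nonneg _).trans hq) (Nat.cast_nonneg _)
  linarith

/-- The bound by the number of crossed edges. -/
theorem sparse_main (n : ℕ) (G : SimpleGraph (Fin n))
    (P : PreDrawing (fun e : Edge G => e.1.1) (fun e : Edge G => e.1.2)) (hs : P.Simple)
    (ho : P.crossings = cr G) :
    (cr₂ G : ℝ) ≤ 3 / 8 * cr G - 1 / 80000 * √((P.crossedEdges : ℝ) ^ 3 / cr G) := by
  have hne := edge_ne G
  have hG := P.good_of_optimal hne hs ho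
  refine (loaded_main n G P hs ho).trans ?_
  have h1 : √((P.crossedEdges : ℝ) ^ 3 / cr G) ≤ 20 * loaded P := by
    refine Real.sqrt_le_iff.2 ⟨by positivity, ?_⟩
    rcases Nat.eq_zero_or_pos (cr G) with h0 | h0
    · rw [h0, Nat.cast_zero, div_zero]
      positivity
    · have h0' : (0 : ℝ) < cr G := by exact_mod_cast h0
      rw [div_le_iff₀ h0']
      have h2 := crossing_lemma P hG hne edge_s1 edge_s2
      rw [ho] at h2
      have h3 : (P.crossedEdges : ℝ) ^ 3 ≤ 400 * ((loaded P : ℝ) ^ 2 * cr G) := by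
        exact_mod_cast h2
      calc (P.crossedEdges : ℝ) ^ 3 ≤ 400 * ((loaded P : ℝ) ^ 2 * cr G) := h3
        _ = (20 * (loaded P : ℝ)) ^ 2 * cr G := by ring
  linarith

/-- The bound for all graphs. -/
theorem all_graphs (n : ℕ) (G : SimpleGraph (Fin n)) :
    (cr₂ G : ℝ) ≤ 3 / 8 * cr G - 1 / 250000 * (cr G : ℝ) ^ (4 / 7 : ℝ) := by
  obtain ⟨P, hs, ho⟩ := exists_optimal G
  have hne := edge_ne G
  have hG := P.good_of_optimal hne hs ho
  have s1 := sparse_main n G P hs ho
  have s2 := mean_main n G P hs ho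
  rcases Nat.eq_zero_or_pos (cr G) with h0 | h0
  · rw [h0] at s1 ⊢
    rw [Nat.cast_zero, div_zero, Real.sqrt_zero] at s1
    rw [Nat.cast_zero, Real.zero_rpow (by norm_num)]
    simpa using s1
  have hN : (0 : ℝ) < cr G := by exact_mod_cast h0
  have h2N := P.card_le_crossedEdges hG hne
  rw [ho] at h2N
  have hm : 0 < P.crossedEdges := by
    by_contra h
    have h5 : P.crossedEdges = 0 := by omega
    rw [h5] at h2N
    simp at h2N
    omega
  have hm' : (0 : ℝ) < P.crossedEdges := by exact_mod_cast hm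
  have hcs := cs_onEdge P hG hne
  rw [ho] at hcs
  set N : ℝ := ((cr G : ℕ) : ℝ) with hNd
  set m : ℝ := ((P.crossedEdges : ℕ) : ℝ) with hmd
  set g : ℝ := 3 / 8 * N - ((cr₂ G : ℕ) : ℝ) with hg
  set x : ℝ := √(m ^ 3 / N) with hx
  set y : ℝ := N ^ 2 / m ^ 2 with hy
  have hx0 : 0 < x := Real.sqrt_pos.2 (by positivity)
  have hy0 : 0 < y := by positivity
  have g1 : x ≤ 80000 * g := by rw [hg]; linarith
  have g2 : y ≤ 1036800 * g := by
    have h3 : 4 * y ≤ (∑ e, (onEdge P e : ℝ) ^ 2) / m := by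
      rw [hy, le_div_iff₀ hm', ← mul_div_assoc, div_mul_eq_mul_div, div_le_iff₀ (by positivity)]
      nlinarith
    have h4 : 1 / 4147200 * (4 * y) ≤ g := by
      rw [hg]
      have := mul_le_mul_of_nonneg_left h3 (by norm_num : (0 : ℝ) ≤ 1 / 4147200)
      linarith
    linarith
  have hxy : x ^ 4 * y ^ 3 = N ^ 4 := by
    have e1 : x ^ 2 = m ^ 3 / N := Real.sq_sqrt (by positivity)
    have e2 : x ^ 4 = (m ^ 3 / N) ^ 2 := by rw [← e1]; ring
    rw [e2, hy]
    field_simp
  have g0 : 0 < g := by linarith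
  have key : N ^ 4 ≤ (250000 * g) ^ 7 := by
    calc N ^ 4 = x ^ 4 * y ^ 3 := hxy.symm
      _ ≤ (80000 * g) ^ 4 * (1036800 * g) ^ 3 :=
          mul_le_mul (pow_le_pow_left₀ hx0.le g1 4) (pow_le_pow_left₀ hy0.le g2 3)
            (by positivity) (by positivity)
      _ = (80000 ^ 4 * 1036800 ^ 3) * g ^ 7 := by ring
      _ ≤ 250000 ^ 7 * g ^ 7 := mul_le_mul_of_nonneg_right (by norm_num) (by positivity)
      _ = (250000 * g) ^ 7 := by ring
  have h7 : N ^ (4 / 7 : ℝ) ≤ 250000 * g := by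
    have e1 : N ^ (4 / 7 : ℝ) = (N ^ 4) ^ (1 / 7 : ℝ) := by
      rw [← Real.rpow_natCast, ← Real.rpow_mul hN.le]
      norm_num
    have e2 : 250000 * g = ((250000 * g) ^ 7) ^ (1 / 7 : ℝ) := by
      rw [← Real.rpow_natCast, ← Real.rpow_mul (by positivity)]
      norm_num
    rw [e1, e2]
    exact Real.rpow_le_rpow (by positivity) key (by norm_num)
  have : 1 / 250000 * N ^ (4 / 7 : ℝ) ≤ g := by linarith
  rw [hg] at this
  linarith

end Helper5.NE
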