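import Pool.Agent.Helper5.NE.Riesz

/-!
# The square function bound, for abstract crossing systems
-/

set_option linter.unusedSectionVars false

namespace Helper5.NE

open Finset Helper5.CR Helper27.SG

/-! ### one crossing -/

theorem term_le {k K x y : ℝ} (h : |k| ≤ K) : k * (x * y) ≤ K * ((x ^ 2 + y ^ 2) / 2) := by
  have h1 : k * (x * y) ≤ |k| * |x * y| := by rw [← abs_mul]; exact le_abs_self _
  have h2 : |x * y| ≤ (x ^ 2 + y ^ 2) / 2 := by
    rw [abs_le]; constructor <;> nlinarith [sq_nonneg (x + y), sq_nonneg (x - y)]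
  exact h1.trans (mul_le_mul h h2 (abs_nonneg _) ((abs_nonneg k).trans h))

theorem abs_mul_le {a b A B : ℝ} (ha : |a| ≤ A) (hb : |b| ≤ B) : |a * b| ≤ A * B := by
  rw [abs_mul]
  exact mul_le_mul ha hb (abs_nonneg _) ((abs_nonneg a).trans ha)

theorem expand {A B C D p q r s : ℝ} (hA : |A| ≤ 1 / 2) (hB : |B| ≤ 1 / 2) (hC : |C| ≤ 1 / 2)
    (hD : |D| ≤ 1 / 2) (hp : |p| ≤ 1 / 2) (hq : |q| ≤ 1 / 2) (hr : |r| ≤ 1 / 2)
    (hs : |s| ≤ 1 / 2) :
    3 / 8 + (1 / 8) * ((A + p) * (C + r) + (A + p) * (D + s) + (B + q) * (C + r) +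
        (B + q) * (D + s) - (A + p) * (B + q) - (C + r) * (D + s)) +
      (3 / 8) * ((A + p) * (B + q) * (C + r) * (D + s)) ≤
    3 / 8 + (1 / 8) * (A * C + A * D + B * C + B * D - A * B - C * D) +
      (1 / 8) * ((A * r + C * p) + (A * s + D * p) + (B * r + C * q) + (B * s + D * q) -
        (A * q + B * p) - (C * s + D * r)) +
      (3 / 8) * (A * B * C * D) +
      (3 / 8) * (A * B * C * s + A * B * D * r + A * C * D * q + B * C * D * p) +
      (57 / 128) * (p ^ 2 + q ^ 2 + r ^ 2 + s ^ 2) := by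
  have one : |(1 : ℝ)| ≤ 1 := by simp
  have mone : |(-1 : ℝ)| ≤ 1 := by simp
  have q1 := term_le (x := p) (y := r) one
  have q2 := term_le (x := p) (y := s) one
  have q3 := term_le (x := q) (y := r) one
  have q4 := term_le (x := q) (y := s) one
  have q5 := term_le (x := p) (y := q) mone
  have q6 := term_le (x := r) (y := s) mone
  have s1 := term_le (x := r) (y := s) (abs_mul_le hA hB)
  have s2 := term_le (x := q) (y := s) (abs_mul_le hA hC)
  have s3 := term_le (x := q) (y := r) (abs_mul_le hA hD)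
  have s4 := term_le (x := p) (y := s) (abs_mul_le hB hC)
  have s5 := term_le (x := p) (y := r) (abs_mul_le hB hD)
  have s6 := term_le (x := p) (y := q) (abs_mul_le hC hD)
  have a1 := term_le (x := r) (y := s) (abs_mul_le hA hq)
  have a2 := term_le (x := q) (y := s) (abs_mul_le hA hr)
  have a3 := term_le (x := q) (y := r) (abs_mul_le hA hs)
  have b1 := term_le (x := r) (y := s) (abs_mul_le hB hp)
  have b2 := term_le (x := p) (y := s) (abs_mul_le hB hr)
  have b3 := term_le (x := p) (y := r) (abs_mul_le hB hs)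
  have c1 := term_le (x := q) (y := s) (abs_mul_le hC hp)
  have c2 := term_le (x := p) (y := s) (abs_mul_le hC hq)
  have c3 := term_le (x := p) (y := q) (abs_mul_le hC hs)
  have d1 := term_le (x := q) (y := r) (abs_mul_le hD hp)
  have d2 := term_le (x := p) (y := r) (abs_mul_le hD hq)
  have d3 := term_le (x := p) (y := q) (abs_mul_le hD hr)
  have f1 := term_le (x := r) (y := s) (abs_mul_le hp hq)
  have f2 := term_le (x := p) (y := q) (abs_mul_le hr hs)
  ring_nf at *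
  linarith

section
variable {V : Type} [Fintype V] [DecidableEq V]

/-- the conditional means -/
noncomputable def mn (c : V → V → ℝ) (β : V → ℝ) (y : V → Bool) (v : V) : ℝ :=
  sg (y v) / 2 + -(β v * phi (c v) y)

variable {c : V → V → ℝ} {β : V → ℝ}

theorem bphi_le (hc : ∀ v, ∑ j, c v j ^ 2 ≤ 1 / 4) (hβ : ∀ v, 0 ≤ β v ∧ β v ≤ 2 / 5) (v : V)
    (y : V → Bool) : |-(β v * phi (c v) y)| ≤ 1 / 2 ∧
      (-(β v * phi (c v) y)) ^ 2 ≤ 4 / 3 * β v ^ 2 := by
  have h1 := phi_sq_le (hc v) y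
  have h2 := hβ v
  have h3 : (-(β v * phi (c v) y)) ^ 2 ≤ 4 / 3 * β v ^ 2 := by
    have : (-(β v * phi (c v) y)) ^ 2 = β v ^ 2 * phi (c v) y ^ 2 := by ring
    rw [this]
    nlinarith [sq_nonneg (β v)]
  refine ⟨?_, h3⟩
  apply abs_le_of_sq_le_sq _ (by norm_num)
  nlinarith

theorem abs_mn_le (hc : ∀ v, ∑ j, c v j ^ 2 ≤ 1 / 4) (hβ : ∀ v, 0 ≤ β v ∧ β v ≤ 2 / 5)
    (y : V → Bool) (v : V) : |mn c β y v| ≤ 1 := by
  have h1 := (bphi_le hc hβ v y).1
  unfold mn
  refine (abs_add_le _ _).trans ?_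
  have h2 : |sg (y v) / 2| = 1 / 2 := by rw [abs_div, abs_sg]; norm_num
  rw [h2]
  linarith

theorem sum_mul_phi (a v : V) :
    ∑ y : V → Bool, sg (y a) / 2 * -(β v * phi (c v) y) =
      -(1 / 2) * (β v * c v a) * Fintype.card (V → Bool) := by
  have h := sum_phi_one (c v) a
  have h1 : ∀ y : V → Bool, sg (y a) / 2 * -(β v * phi (c v) y) =
      -(1 / 2) * β v * (sg (y a) * phi (c v) y) := by intro y; ring
  rw [Finset.sum_congr rfl (fun y _ => h1 y), ← Finset.mul_sum, h]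
  ring

theorem sum_mul_phi_three {a b d : V} (hab : a ≠ b) (had : a ≠ d) (hbd : b ≠ d) (v : V) :
    ∑ y : V → Bool, sg (y a) / 2 * (sg (y b) / 2) * (sg (y d) / 2) * -(β v * phi (c v) y) =
      (1 / 8) * (β v * (c v a * c v b * c v d)) * Fintype.card (V → Bool) := by
  have h := sum_phi_three (c v) hab had hbd
  have h1 : ∀ y : V → Bool, sg (y a) / 2 * (sg (y b) / 2) * (sg (y d) / 2) *
      -(β v * phi (c v) y) =
      -(1 / 8) * β v * (sg (y a) * sg (y b) * sg (y d) * phi (c v) y) := by intro y; ring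
  rw [Finset.sum_congr rfl (fun y _ => h1 y), ← Finset.mul_sum, h]
  ring

theorem sum_half_two {a b : V} (hab : a ≠ b) :
    ∑ y : V → Bool, sg (y a) / 2 * (sg (y b) / 2) = 0 := by
  have h1 : ∀ y : V → Bool, sg (y a) / 2 * (sg (y b) / 2) = (1 / 4) * (sg (y a) * sg (y b)) := by
    intro y; ring
  rw [Finset.sum_congr rfl (fun y _ => h1 y), ← Finset.mul_sum, sum_two hab, mul_zero]

theorem sum_half_four {a b g h : V} (hab : a ≠ b) (hag : a ≠ g) (hbg : b ≠ g) :
    ∑ y : V → Bool, sg (y a) / 2 * (sg (y b) / 2) * (sg (y g) / 2) * (sg (y h) / 2) = 0 := by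
  have h1 : ∀ y : V → Bool, sg (y a) / 2 * (sg (y b) / 2) * (sg (y g) / 2) * (sg (y h) / 2) =
      (1 / 16) * (sg (y a) * sg (y b) * sg (y g) * sg (y h)) := by
    intro y; ring
  rw [Finset.sum_congr rfl (fun y _ => h1 y), ← Finset.mul_sum, sum_three hab hag hbg, mul_zero]

/-- the mean cost of one crossing -/
theorem sum_pol_mn (hc : ∀ v, ∑ j, c v j ^ 2 ≤ 1 / 4) (hβ : ∀ v, 0 ≤ β v ∧ β v ≤ 2 / 5)
    {a b g h : V} (hab : a ≠ b) (hag : a ≠ g) (hah : a ≠ h) (hbg : b ≠ g) (hbh : b ≠ h)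
    (hgh : g ≠ h) :
    ∑ y, pol a b g h (mn c β y) ≤ (3 / 8 + (1 / 16) *
      ((β a * c a b + β b * c b a) + (β g * c g h + β h * c h g) - (β a * c a g + β g * c g a) -
        (β a * c a h + β h * c h a) - (β b * c b g + β g * c g b) - (β b * c b h + β h * c h b)) +
      (3 / 64) * (β a * (c a b * c a g * c a h) + β b * (c b a * c b g * c b h) +
        β g * (c g h * c g a * c g b) + β h * (c h g * c h a * c h b)) +
      (19 / 32) * (β a ^ 2 + β b ^ 2 + β g ^ 2 + β h ^ 2)) * Fintype.card (V → Bool) := by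
  have hs : ∀ v (y : V → Bool), |sg (y v) / 2| ≤ 1 / 2 := by
    intro v y; rw [abs_div, abs_sg]; norm_num
  have h1 : ∀ y : V → Bool, pol a b g h (mn c β y) ≤ _ := fun y =>
    expand (hs a y) (hs b y) (hs g y) (hs h y) (bphi_le hc hβ a y).1 (bphi_le hc hβ b y).1
      (bphi_le hc hβ g y).1 (bphi_le hc hβ h y).1
  refine (Finset.sum_le_sum fun y _ => h1 y).trans ?_
  have e4 : ∀ y : V → Bool, (-(β a * phi (c a) y)) ^ 2 + (-(β b * phi (c b) y)) ^ 2 +
      (-(β g * phi (c g) y)) ^ 2 + (-(β h * phi (c h) y)) ^ 2 ≤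
      4 / 3 * (β a ^ 2 + β b ^ 2 + β g ^ 2 + β h ^ 2) := by
    intro y
    have := (bphi_le hc hβ a y).2
    have := (bphi_le hc hβ b y).2
    have := (bphi_le hc hβ g y).2
    have := (bphi_le hc hβ h y).2
    linarith
  have e5 : ∑ y : V → Bool, ((-(β a * phi (c a) y)) ^ 2 + (-(β b * phi (c b) y)) ^ 2 +
      (-(β g * phi (c g) y)) ^ 2 + (-(β h * phi (c h) y)) ^ 2) ≤
      4 / 3 * (β a ^ 2 + β b ^ 2 + β g ^ 2 + β h ^ 2) * Fintype.card (V → Bool) := by
    refine (Finset.sum_le_card_nsmul _ _ _ (fun y _ => e4 y)).trans (le_of_eq ?_)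
    rw [nsmul_eq_mul, card_univ, mul_comm]
  simp only [Finset.sum_add_distrib, ← Finset.mul_sum, Finset.sum_sub_distrib] at e5 ⊢
  rw [sum_half_two hag, sum_half_two hah, sum_half_two hbg, sum_half_two hbh, sum_half_two hab,
    sum_half_two hgh, sum_half_four hab hag hbg, sum_mul_phi_three hab hag hbg,
    sum_mul_phi_three hab hah hbh, sum_mul_phi_three hag hah hgh, sum_mul_phi_three hbg hbh hgh]
  simp only [sum_mul_phi, Finset.sum_const, card_univ, nsmul_eq_mul]
  linarith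

end

end Helper5.NE
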