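import Pool.Agent.Helper5.CR.B6

/-!
# The mean square bound: combinatorial part
-/

set_option linter.unusedSectionVars false

namespace Helper5.NE

open Finset Helper5.CR

section abs
variable {V E X : Type} [Fintype V] [DecidableEq V] [Fintype E] [DecidableEq E] [Fintype X]
  [DecidableEq X]

/-- the crossings on an edge -/
def on (C : CSys V E X) (e : E) : Finset X := univ.filter (fun x => C.e₁ x = e ∨ C.e₂ x = e)

/-- the other edge -/
def oe (C : CSys V E X) (e : E) (x : X) : E := if C.e₁ x = e then C.e₂ x else C.e₁ x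

theorem card_on (C : CSys V E X) (e : E) : (on C e).card = C.k e := rfl

theorem mem_on (C : CSys V E X) (e : E) (x : X) : x ∈ on C e ↔ (C.e₁ x = e ∨ C.e₂ x = e) := by
  simp [on]

theorem Sf_eq_sum (C : CSys V E X) (f : E) : C.Sf f = ∑ x ∈ on C f, C.k (oe C f x) := by
  unfold CSys.Sf on oe
  rw [Finset.sum_filter]
  refine Finset.sum_congr rfl fun x _ => ?_
  have h5 := C.ne x
  by_cases h6 : C.e₁ x = f
  · have h7 : C.e₂ x ≠ f := fun h => h5 (h6.trans h.symm)
    simp [h6, h7]
  · by_cases h7 : C.e₂ x = f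
    · simp [h6, h7]
    · simp [h6, h7]

theorem oe_ne (C : CSys V E X) {f : E} {x : X} (hx : x ∈ on C f) : oe C f x ≠ f := by
  rw [mem_on] at hx
  unfold oe
  split_ifs with h
  · exact fun h' => C.ne x (h.trans h'.symm)
  · exact h

theorem mem_on_oe (C : CSys V E X) (f : E) (x : X) : x ∈ on C (oe C f x) := by
  rw [mem_on]
  unfold oe
  split_ifs with h
  · exact Or.inr rfl
  · exact Or.inl rfl

theorem oe_inj (C : CSys V E X) {f : E} {x y : X} (hx : x ∈ on C f) (hy : y ∈ on C f)
    (h : oe C f x = oe C f y) : x = y := by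
  rw [mem_on] at hx hy
  unfold oe at h
  apply C.once
  by_cases h1 : C.e₁ x = f
  · rw [if_pos h1] at h
    by_cases h2 : C.e₁ y = f
    · rw [if_pos h2] at h
      exact Or.inl ⟨h1.trans h2.symm, h⟩
    · rw [if_neg h2] at h
      exact Or.inr ⟨h1.trans (hy.resolve_left h2).symm, h⟩
  · rw [if_neg h1] at h
    by_cases h2 : C.e₁ y = f
    · rw [if_pos h2] at h
      exact Or.inr ⟨h, (hx.resolve_left h1).trans h2.symm⟩
    · rw [if_neg h2] at h
      exact Or.inl ⟨h, (hx.resolve_left h1).trans (hy.resolve_left h2).symm⟩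

theorem sum_Sf_crossed (C : CSys V E X) : ∑ f ∈ C.crossed, C.Sf f = ∑ e, C.k e ^ 2 := by
  rw [← C.sum_Sf]
  refine Finset.sum_subset (subset_univ _) fun f _ hf => ?_
  have hk : C.k f = 0 := by
    unfold CSys.crossed at hf
    simpa using hf
  rw [Sf_eq_sum]
  rw [← card_on, Finset.card_eq_zero] at hk
  rw [hk, Finset.sum_empty]

theorem exists_f2 (C : CSys V E X) (hX : 0 < Fintype.card X) :
    ∃ f ∈ C.crossed, ∑ e, C.k e ^ 2 + C.crossed.card * C.k f ^ 2 ≤
      2 * C.crossed.card * C.Sf f := by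
  by_contra hcon
  push Not at hcon
  have hne : C.crossed.Nonempty := by
    obtain ⟨x⟩ := Fintype.card_pos_iff.1 hX
    refine ⟨C.e₁ x, ?_⟩
    unfold CSys.crossed CSys.k
    simp only [mem_filter, mem_univ, true_and]
    exact Finset.card_pos.2 ⟨x, by simp⟩
  have h1 := Finset.sum_lt_sum_of_nonempty hne hcon
  rw [← Finset.mul_sum, sum_Sf_crossed, Finset.sum_add_distrib, ← Finset.mul_sum,
    C.sum_k_crossed (fun n => n ^ 2) rfl, Finset.sum_const, smul_eq_mul] at h1
  have : 2 * C.crossed.card * ∑ e, C.k e ^ 2 =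
      C.crossed.card * ∑ e, C.k e ^ 2 + C.crossed.card * ∑ e, C.k e ^ 2 := by ring
  omega

/-- the crossings on `e` with edges which have only this crossing -/
def unit (C : CSys V E X) (e : E) : Finset X := (on C e).filter (fun x => C.k (oe C e x) = 1)

theorem unit_indep (C : CSys V E X) (e : E) (he : 2 ≤ C.k e) (x : X) :
    ¬ (C.e₁ x ∈ (unit C e).image (oe C e) ∧ C.e₂ x ∈ (unit C e).image (oe C e)) := by
  rintro ⟨h1, h2⟩
  obtain ⟨y, hy, hy1⟩ := Finset.mem_image.1 h1
  obtain ⟨z, hz, hz1⟩ := Finset.mem_image.1 h2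
  unfold unit at hy hz
  rw [mem_filter] at hy hz
  rw [hy1] at hy
  rw [hz1] at hz
  have h3 : (on C (C.e₁ x)).card = 1 := hy.2
  obtain ⟨a, ha⟩ := Finset.card_eq_one.1 h3
  have h4 : x ∈ on C (C.e₁ x) := by rw [mem_on]; exact Or.inl rfl
  have h5 : y ∈ on C (C.e₁ x) := by rw [← hy1]; exact mem_on_oe C e y
  rw [ha, mem_singleton] at h4 h5
  have h6 : x ∈ on C e := by rw [h4, ← h5]; exact hy.1
  rw [mem_on] at h6
  rcases h6 with h6 | h6
  · rw [h6] at hy; omega
  · rw [h6] at hz; omega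

theorem card_unit (C : CSys V E X) (e : E) :
    ((unit C e).image (oe C e)).card = (unit C e).card := by
  apply Finset.card_image_of_injOn
  intro x hx y hy hxy
  unfold unit at hx hy
  simp only [coe_filter, Set.mem_ofPred_eq] at hx hy
  exact oe_inj C hx.1 hy.1 hxy

theorem k_oe_pos (C : CSys V E X) (e : E) (x : X) : 0 < C.k (oe C e x) :=
  Finset.card_pos.2 ⟨x, mem_on_oe C e x⟩

end abs

end Helper5.NE
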