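import Pool.Agent.Helper5.NE.MeanA

/-!
# The mean square bound
-/

set_option linter.unusedSectionVars false

namespace Helper5.NE

open Finset Helper5.CR

section drawing
variable {V E : Type} [Fintype E] {src tgt : E → V}

open Classical in
theorem bound_f [Fintype V] (P : PreDrawing src tgt) (hG : P.Good)
    (hne : ∀ e, src e ≠ tgt e) (f : E) (h2 : 2 ≤ (P.toCSys hG hne).k f)
    (hA : 88 * ((P.toCSys hG hne).k f : ℝ) ≤ (P.toCSys hG hne).Sf f)
    (hB : 352 * (((P.toCSys hG hne).k f : ℝ) + 11) * (P.toCSys hG hne).k f ^ 2 ≤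
      ((P.toCSys hG hne).Sf f : ℝ) ^ 2) :
    ∃ S : E → Prop, 8 * ((crS src tgt S + crS src tgt (fun e => ¬ S e) : ℕ) : ℝ) +
      min (((P.toCSys hG hne).Sf f : ℝ) / 2)
        (((P.toCSys hG hne).Sf f : ℝ) ^ 2 / (352 * (P.toCSys hG hne).k f ^ 2)) ≤
      3 * P.crossings := by
  have hdS := fun w q hw hq hk => P.exists_dense_S hG hne w q hw hq f hk h2
  generalize (P.toCSys hG hne).k f = k at *
  generalize (P.toCSys hG hne).Sf f = s at *
  have h2r : (2 : ℝ) ≤ k := by exact_mod_cast h2
  have hk0 : (0 : ℝ) < k := by linarith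
  by_cases hcase : 44 * (k : ℝ) ^ 2 ≤ s
  · obtain ⟨S, T, hS, hT⟩ := hdS k 1 h2 le_rfl (by omega)
    refine ⟨S, ?_⟩
    have hSr : 8 * ((crS src tgt S + crS src tgt (fun e => ¬ S e) : ℕ) : ℝ) + T ≤
        3 * P.crossings + k + 11 * (k : ℝ) ^ 2 := by exact_mod_cast hS
    have hTr : (s : ℝ) ≤ T := by
      have : s ≤ T := by omega
      exact_mod_cast this
    have hmin := min_le_left ((s : ℝ) / 2) ((s : ℝ) ^ 2 / (352 * k ^ 2))
    have hkk : (k : ℝ) ≤ k ^ 2 / 2 := by nlinarith
    nlinarith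
  · push Not at hcase
    set a : ℝ := s / (44 * k) with ha
    have hsa : (s : ℝ) = 44 * k * a := by rw [ha]; field_simp
    have ha2 : 2 ≤ a := by
      rw [ha, le_div_iff₀ (by positivity)]
      linarith
    have hak : a < k := by
      rw [ha, div_lt_iff₀ (by positivity)]
      nlinarith
    set w : ℕ := ⌊a⌋₊ with hw
    have hwa : (w : ℝ) ≤ a := Nat.floor_le (by linarith)
    have hwa' : a - 1 < w := Nat.sub_one_lt_floor a
    have hw2 : 2 ≤ w := by
      rw [hw]
      exact Nat.le_floor (by exact_mod_cast ha2)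
    have hw2r : (2 : ℝ) ≤ w := by exact_mod_cast hw2
    obtain ⟨q, hq⟩ : ∃ q : ℕ, q = k / w + 1 := ⟨_, rfl⟩
    have hqw : k ≤ q * w := by
      have h3 := Nat.div_add_mod k w
      have h4 := Nat.mod_lt k (show 0 < w by omega)
      rw [hq]
      nlinarith
    have hqw2 : (q : ℝ) * w ≤ 2 * k := by
      have h3 : (k / w : ℕ) * w ≤ k := Nat.div_mul_le_self k w
      have h4 : ((k / w : ℕ) : ℝ) * w ≤ k := by exact_mod_cast h3
      rw [hq]
      push_cast
      push_cast at h4
      linarith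
    obtain ⟨S, T, hS, hT⟩ := hdS w q hw2 (by rw [hq]; exact Nat.le_add_left 1 _) hqw
    refine ⟨S, ?_⟩
    have hSr : 8 * ((crS src tgt S + crS src tgt (fun e => ¬ S e) : ℕ) : ℝ) + T ≤
        3 * P.crossings + k + 11 * (w : ℝ) ^ 2 := by exact_mod_cast hS
    have hTr : (s : ℝ) ≤ q * T := by exact_mod_cast hT
    have hT0 : (0 : ℝ) ≤ T := Nat.cast_nonneg _
    have hT2 : 22 * a * w ≤ T := by
      have h3 : (2 * k : ℝ) * (22 * a * w) ≤ 2 * k * T := by
        calc (2 * k : ℝ) * (22 * a * w) = s * w := by rw [hsa]; ring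
          _ ≤ q * T * w := mul_le_mul_of_nonneg_right hTr (by linarith)
          _ = (q * w) * T := by ring
          _ ≤ 2 * k * T := mul_le_mul_of_nonneg_right hqw2 hT0
      exact le_of_mul_le_mul_left h3 (by positivity)
    have hsq : 11 * (w : ℝ) ^ 2 - 22 * a * w ≤ 11 - 11 * a ^ 2 := by
      have h3 : (w - a) ^ 2 ≤ (1 : ℝ) := by
        have h4 : |(w : ℝ) - a| ≤ 1 := by rw [abs_le]; constructor <;> linarith
        have := sq_le_one_iff_abs_le_one ((w : ℝ) - a) |>.2 h4
        exact this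
      nlinarith
    have hmin := min_le_right ((s : ℝ) / 2) ((s : ℝ) ^ 2 / (352 * k ^ 2))
    have he : (s : ℝ) ^ 2 / (352 * k ^ 2) = 11 / 2 * a ^ 2 := by
      rw [hsa]; field_simp; ring
    have hB' : (k : ℝ) + 11 ≤ 11 / 2 * a ^ 2 := by
      rw [← he, le_div_iff₀ (by positivity)]
      linarith
    linarith

open Classical in
theorem win_single [Fintype V] (P : PreDrawing src tgt) (hG : P.Good)
    (hne : ∀ e, src e ≠ tgt e) (f e : E) (hef : e ≠ f) (x : P.X) (hxe : P.thru e x)
    (hxf : P.thru f x) (h2 : 2 ≤ (P.toCSys hG hne).k f) :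
    ∃ S : E → Prop, 8 * (crS src tgt S + crS src tgt (fun e => ¬ S e)) +
      (P.toCSys hG hne).k e ≤ 3 * P.crossings + (P.toCSys hG hne).k f + 44 := by
  -- the route of `f` has at least two inner points
  have hlen : 2 ≤ (P.route f).tail.length := by
    have h3 : ((univ : Finset P.X2).filter (fun y => (P.toCSys hG hne).e₁ y = f ∨
        (P.toCSys hG hne).e₂ y = f)).card ≤ ((P.route f).tail.map P.pt).toFinset.card := by
      refine Finset.card_le_card_of_injOn (fun y => y.1) ?_ ?_
      · intro y hy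
        simp only [coe_filter, mem_univ, true_and, Set.mem_ofPred_eq] at hy
        simp only [List.coe_toFinset, Set.mem_ofPred_eq]
        have : P.thru f y.1 := by
          rw [P.thru_iff hG y f]
          rcases hy with h | h
          · exact Or.inl h.symm
          · exact Or.inr h.symm
        exact this
      · intro y _ z _ h
        exact Subtype.ext h
    have h4 := List.toFinset_card_le ((P.route f).tail.map P.pt)
    rw [List.length_map] at h4
    have h5 : (P.toCSys hG hne).k f = ((univ : Finset P.X2).filter (fun y =>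
      (P.toCSys hG hne).e₁ y = f ∨ (P.toCSys hG hne).e₂ y = f)).card := rfl
    omega
  obtain ⟨d, hd, hdx⟩ := List.mem_map.1 hxf
  obtain ⟨a, b, hab⟩ := List.append_of_mem hd
  -- the window
  obtain ⟨t₀, t₁, t₂, e1, e2, e3⟩ : ∃ t₀ t₁ t₂ : List P.D,
      (P.route f).tail = t₀ ++ t₁ ++ t₂ ∧ t₁.length = 2 ∧ d ∈ t₁ := by
    rcases List.eq_nil_or_concat a with h0 | ⟨l, y, h0⟩
    · subst h0
      match b, hab with
      | [], hab => rw [hab] at hlen; simp at hlen
      | y :: l, hab => exact ⟨[], [d, y], l, by rw [hab]; simp, rfl, by simp⟩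
    · subst h0
      exact ⟨l, [y, d], b, by rw [hab]; simp, rfl, by simp⟩
  obtain ⟨S, hS⟩ := P.dense_bound hG hne f t₀ t₁ t₂ e1 (by omega)
  refine ⟨S, ?_⟩
  have ht1 : ∀ c ∈ t₁, P.thru f (P.pt c) := by
    intro c hc
    apply List.mem_map_of_mem
    rw [e1]; simp [hc]
  have hmem : e ∈ P.winEdges f t₁ := by
    unfold PreDrawing.winEdges
    simp only [mem_filter, mem_univ, true_and]
    exact ⟨hef, d, e3, by rw [hdx]; exact hxe⟩
  have hcard : (P.winEdges f t₁).card ≤ 2 := by
    have h3 : P.winEdges f t₁ ⊆ (t₁.map (fun c => P.oth hG f (P.pt c))).toFinset := by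
      intro g hg
      unfold PreDrawing.winEdges at hg
      simp only [mem_filter, mem_univ, true_and] at hg
      obtain ⟨hgf, c, hc, hgc⟩ := hg
      rw [List.mem_toFinset, List.mem_map]
      have h6 := P.passes_two_of_thru hG hgf hgc (ht1 c hc)
      exact ⟨c, hc, ((P.oth_spec hG f _ h6 (ht1 c hc)).2.2 g hgf hgc).symm⟩
    refine (Finset.card_le_card h3).trans ((List.toFinset_card_le _).trans ?_)
    rw [List.length_map, e2]
  have hsum : (P.toCSys hG hne).k e ≤ ∑ g ∈ P.winEdges f t₁, (P.toCSys hG hne).k g :=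
    Finset.single_le_sum (f := fun g => (P.toCSys hG hne).k g) (fun _ _ => Nat.zero_le _) hmem
  have h7 : 11 * (P.winEdges f t₁).card ^ 2 ≤ 44 := by
    have := Nat.pow_le_pow_left hcard 2
    omega
  omega

end drawing

end Helper5.NE
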