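import Pool.Agent.Helper5.NE.MeanB

/-!
# The mean square bound: assembly
-/

set_option linter.unusedSectionVars false

namespace Helper5.NE

open Finset Helper5.CR

section drawing
variable {V E : Type} [Fintype E] {src tgt : E → V}

open Classical in
/-- the case of an edge with one crossing -/
theorem unit_case [Fintype V] (P : PreDrawing src tgt) (hG : P.Good)
    (hne : ∀ e, src e ≠ tgt e) (e : E) (hK : 259200 ≤ (P.toCSys hG hne).k e) :
    ∃ S : E → Prop, 8 * ((crS src tgt S + crS src tgt (fun e => ¬ S e) : ℕ) : ℝ) +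
      ((P.toCSys hG hne).k e : ℝ) / 4 ≤ 3 * P.crossings := by
  set C := P.toCSys hG hne with hC
  obtain ⟨K, hKd⟩ : ∃ K, K = C.k e := ⟨_, rfl⟩
  rw [← hKd] at hK
  have hKr : (259200 : ℝ) ≤ K := by exact_mod_cast hK
  by_cases ha : K ≤ 2 * (unit C e).card
  · -- many unit edges
    obtain ⟨S, hS⟩ := P.sparse_bound hG hne ((unit C e).image (oe C e))
      (fun x => unit_indep C e (by rw [← hKd]; omega) x)
      (by
        intro f hf
        obtain ⟨y, hy, hy1⟩ := Finset.mem_image.1 hf
        rw [← hy1]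
        exact k_oe_pos C e y) 1
      (by
        intro f hf
        obtain ⟨y, hy, hy1⟩ := Finset.mem_image.1 hf
        unfold unit at hy
        rw [mem_filter] at hy
        rw [← hy1]
        exact hy.2.le)
    refine ⟨S, ?_⟩
    rw [card_unit] at hS
    have hSr : (2 : ℝ) ^ (2 + 2 * 1) *
        (8 * ((crS src tgt S + crS src tgt (fun e => ¬ S e) : ℕ) : ℝ)) +
        8 * (unit C e).card ≤ 2 ^ (2 + 2 * 1) * (3 * P.crossings) := by exact_mod_cast hS
    have har : (K : ℝ) ≤ 2 * (unit C e).card := by exact_mod_cast ha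
    rw [← hKd]
    norm_num at hSr
    push_cast
    linarith
  · push Not at ha
    by_cases hb : ∃ x ∈ on C e, 2 ≤ C.k (oe C e x) ∧ 2 * C.k (oe C e x) ≤ K
    · obtain ⟨x, hx, hx2, hxK⟩ := hb
      have hxe : P.thru e x.1 := by
        rw [P.thru_iff hG x e]
        rw [mem_on] at hx
        rcases hx with h | h
        · exact Or.inl h.symm
        · exact Or.inr h.symm
      have hxf : P.thru (oe C e x) x.1 := by
        rw [P.thru_iff hG x]
        have h3 := mem_on_oe C e x
        rw [mem_on] at h3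
        rcases h3 with h | h
        · exact Or.inl h.symm
        · exact Or.inr h.symm
      obtain ⟨S, hS⟩ := win_single P hG hne (oe C e x) e (oe_ne C hx).symm x.1 hxe hxf hx2
      refine ⟨S, ?_⟩
      rw [← hC, ← hKd] at hS
      have hSr : 8 * ((crS src tgt S + crS src tgt (fun e => ¬ S e) : ℕ) : ℝ) + K ≤
        3 * P.crossings + C.k (oe C e x) + 44 := by exact_mod_cast hS
      have hxKr : 2 * (C.k (oe C e x) : ℝ) ≤ K := by exact_mod_cast hxK
      rw [← hKd]
      linarith
    · push Not at hb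
      -- many long edges cross `e`
      have hS4 : K ^ 2 ≤ 4 * C.Sf e := by
        have h1 : ∑ x ∈ (on C e) \ (unit C e), C.k (oe C e x) ≤ C.Sf e := by
          rw [Sf_eq_sum]
          exact Finset.sum_le_sum_of_subset Finset.sdiff_subset
        have h2 : ((on C e) \ (unit C e)).card * K ≤
            2 * ∑ x ∈ (on C e) \ (unit C e), C.k (oe C e x) := by
          rw [Finset.mul_sum, ← smul_eq_mul]
          refine Finset.card_nsmul_le_sum _ _ _ ?_
          intro x hx
          rw [mem_sdiff] at hx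
          have h3 := k_oe_pos C e x
          have h4 : C.k (oe C e x) ≠ 1 := by
            intro h
            exact hx.2 (by unfold unit; rw [mem_filter]; exact ⟨hx.1, h⟩)
          have h5 := hb x hx.1 (by omega)
          omega
        have h3 : ((on C e) \ (unit C e)).card + (unit C e).card = K := by
          unfold unit
          rw [Finset.card_sdiff_add_card_eq_card (Finset.filter_subset _ _), card_on, hKd]
        have h4 : K ≤ 2 * ((on C e) \ (unit C e)).card := by omega
        have h5 : K * K ≤ 2 * ((on C e) \ (unit C e)).card * K := Nat.mul_le_mul_right _ h4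
        rw [sq]
        calc K * K ≤ 2 * ((on C e) \ (unit C e)).card * K := h5
          _ = 2 * (((on C e) \ (unit C e)).card * K) := by ring
          _ ≤ 2 * (2 * ∑ x ∈ (on C e) \ (unit C e), C.k (oe C e x)) := Nat.mul_le_mul_left _ h2
          _ ≤ 4 * C.Sf e := by omega
      have hS4r : (K : ℝ) ^ 2 ≤ 4 * C.Sf e := by exact_mod_cast hS4
      have hKK : (0 : ℝ) < K := by linarith
      have hA : 88 * (C.k e : ℝ) ≤ C.Sf e := by
        rw [← hKd]
        nlinarith
      have hSf2 : ((K : ℝ) ^ 2 / 4) ^ 2 ≤ (C.Sf e : ℝ) ^ 2 := by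
        apply pow_le_pow_left₀ (by positivity)
        linarith
      have hB : 352 * ((C.k e : ℝ) + 11) * C.k e ^ 2 ≤ (C.Sf e : ℝ) ^ 2 := by
        rw [← hKd]
        refine le_trans ?_ hSf2
        have h6 : ((K : ℝ) ^ 2 / 4) ^ 2 = (K ^ 2 / 16) * K ^ 2 := by ring
        rw [h6]
        apply mul_le_mul_of_nonneg_right _ (sq_nonneg _)
        nlinarith
      obtain ⟨S, hS⟩ := bound_f P hG hne e (by rw [← hC, ← hKd]; omega) hA hB
      refine ⟨S, le_trans ?_ hS⟩
      rw [← hC, ← hKd]
      have h7 : (K : ℝ) / 4 ≤ min ((C.Sf e : ℝ) / 2) ((C.Sf e : ℝ) ^ 2 / (352 * (K : ℝ) ^ 2)) := by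
        apply le_min
        · nlinarith
        · rw [le_div_iff₀ (by positivity)]
          refine le_trans ?_ hSf2
          have h6 : ((K : ℝ) ^ 2 / 4) ^ 2 = (K ^ 2 / 16) * K ^ 2 := by ring
          have h8 : (K : ℝ) / 4 * (352 * K ^ 2) = (88 * K) * K ^ 2 := by ring
          rw [h6, h8]
          apply mul_le_mul_of_nonneg_right _ (sq_nonneg _)
          nlinarith
      linarith

open Classical in
theorem mean_square [Fintype V] (P : PreDrawing src tgt) (hG : P.Good)
    (hne : ∀ e, src e ≠ tgt e) (h0 : 0 < P.crossings) :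
    ∃ S : E → Prop, 8 * ((crS src tgt S + crS src tgt (fun e => ¬ S e) : ℕ) : ℝ) +
      (∑ e, ((P.toCSys hG hne).k e : ℝ) ^ 2) / (P.toCSys hG hne).crossed.card / 518400 ≤
      3 * P.crossings := by
  set C := P.toCSys hG hne with hC
  have hX : 0 < Fintype.card P.X2 := by rw [P.card_X2]; exact h0
  obtain ⟨f, hf, hf2⟩ := exists_f2 C hX
  have hm : 0 < C.crossed.card := Finset.card_pos.2 ⟨f, hf⟩
  have hmr : (0 : ℝ) < C.crossed.card := by exact_mod_cast hm
  obtain ⟨Q, hQ⟩ : ∃ Q : ℝ, Q = (∑ e, (C.k e : ℝ) ^ 2) / C.crossed.card := ⟨_, rfl⟩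
  rw [← hQ]
  have hQ0 : 0 ≤ Q := by rw [hQ]; positivity
  by_cases hsmall : Q ≤ 518400
  · obtain ⟨S, hS⟩ := P.strict_bound hG hne h0
    refine ⟨S, ?_⟩
    have h3 : 8 * (crS src tgt S + crS src tgt (fun e => ¬ S e)) + 1 ≤ 3 * P.crossings := hS
    have h3r : 8 * ((crS src tgt S + crS src tgt (fun e => ¬ S e) : ℕ) : ℝ) + 1 ≤
        3 * P.crossings := by exact_mod_cast h3
    have : Q / 518400 ≤ 1 := by rw [div_le_one (by norm_num)]; exact hsmall
    linarith
  · push Not at hsmall
    have hf2r : Q + (C.k f : ℝ) ^ 2 ≤ 2 * C.Sf f := by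
      have h1 : (∑ e, (C.k e : ℝ) ^ 2) + C.crossed.card * (C.k f : ℝ) ^ 2 ≤
          2 * C.crossed.card * C.Sf f := by exact_mod_cast hf2
      have h2 : (∑ e, (C.k e : ℝ) ^ 2) = Q * C.crossed.card := by rw [hQ]; field_simp
      rw [h2] at h1
      have h3 : (Q + (C.k f : ℝ) ^ 2) * C.crossed.card ≤ (2 * C.Sf f) * C.crossed.card := by
        linarith
      exact le_of_mul_le_mul_right h3 hmr
    have hk1 : 1 ≤ C.k f := by
      unfold CSys.crossed at hf
      have : 0 < C.k f := by simpa using hf
      exact this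
    rcases Nat.lt_or_ge 1 (C.k f) with hk | hk
    · -- at least two crossings on f
      have hk0 : (0 : ℝ) < C.k f := by exact_mod_cast hk1
      -- A = Sf / k
      obtain ⟨A, hA⟩ : ∃ A : ℝ, A = C.Sf f / C.k f := ⟨_, rfl⟩
      have hSA : (C.Sf f : ℝ) = A * C.k f := by rw [hA]; field_simp
      have hAk : (C.k f : ℝ) ≤ 2 * A := by
        have h3 : (C.k f : ℝ) * C.k f ≤ (2 * A) * C.k f := by
          have : (2 * A) * C.k f = 2 * C.Sf f := by rw [hSA]; ring
          rw [this]
          nlinarith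
        exact le_of_mul_le_mul_right h3 hk0
      have hAQ : Q ≤ A ^ 2 := by
        rw [hSA] at hf2r
        nlinarith [sq_nonneg (A - C.k f)]
      have hA0 : 0 ≤ A := by linarith
      have hA720 : 720 ≤ A := by
        by_contra hcon
        push Not at hcon
        nlinarith
      obtain ⟨S, hS⟩ := bound_f P hG hne f hk (by
        rw [← hC, hSA]
        have : (88 : ℝ) ≤ A := by linarith
        exact mul_le_mul_of_nonneg_right this hk0.le) (by
        rw [← hC, hSA, mul_pow]
        apply mul_le_mul_of_nonneg_right _ (sq_nonneg _)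
        nlinarith)
      refine ⟨S, le_trans ?_ hS⟩
      rw [← hC]
      have h7 : Q / 518400 ≤ min ((C.Sf f : ℝ) / 2)
          ((C.Sf f : ℝ) ^ 2 / (352 * (C.k f : ℝ) ^ 2)) := by
        apply le_min
        · have : 0 ≤ (C.k f : ℝ) ^ 2 := sq_nonneg _
          linarith
        · have h8 : (C.Sf f : ℝ) ^ 2 / (352 * (C.k f : ℝ) ^ 2) = A ^ 2 / 352 := by
            rw [hSA]; field_simp
          rw [h8]
          linarith
      linarith
    · -- exactly one crossing on f
      have hk1' : C.k f = 1 := by omega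
      obtain ⟨x, hx⟩ := Finset.card_eq_one.1 (show (on C f).card = 1 from hk1')
      have hSf : C.Sf f = C.k (oe C f x) := by
        rw [Sf_eq_sum, hx, Finset.sum_singleton]
      rw [hk1', hSf] at hf2r
      push_cast at hf2r
      have hK : (259200 : ℝ) ≤ C.k (oe C f x) := by linarith
      obtain ⟨S, hS⟩ := unit_case P hG hne (oe C f x) (by exact_mod_cast hK)
      refine ⟨S, le_trans ?_ hS⟩
      rw [← hC]
      linarith

/-- the number of crossings on the edge `e` -/
noncomputable def onEdge (P : PreDrawing src tgt) (e : E) : ℕ :=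
  Nat.card {x : P.X // P.passes x = 2 ∧ ∃ δ ∈ (P.route e).tail, P.pt δ = x}

open Classical in
theorem onEdge_eq [Fintype V] (P : PreDrawing src tgt) (hG : P.Good) (hne : ∀ e, src e ≠ tgt e)
    (e : E) : onEdge P e = (P.toCSys hG hne).k e := by
  unfold onEdge CSys.k
  rw [← Fintype.card_subtype, ← Nat.card_eq_fintype_card]
  refine Nat.card_congr ?_
  have key : ∀ x : P.X2, (∃ δ ∈ (P.route e).tail, P.pt δ = x.1) ↔
      ((P.toCSys hG hne).e₁ x = e ∨ (P.toCSys hG hne).e₂ x = e) := by
    intro x
    have h1 : (∃ δ ∈ (P.route e).tail, P.pt δ = x.1) ↔ P.thru e x.1 := by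
      unfold PreDrawing.thru
      rw [List.mem_map]
    rw [h1, P.thru_iff hG x e]
    constructor
    · rintro (h | h)
      · exact Or.inl h.symm
      · exact Or.inr h.symm
    · rintro (h | h)
      · exact Or.inl h.symm
      · exact Or.inr h.symm
  exact
    { toFun := fun x => ⟨⟨x.1, x.2.1⟩, (key ⟨x.1, x.2.1⟩).1 x.2.2⟩
      invFun := fun x => ⟨x.1.1, x.1.2, (key x.1).2 x.2⟩
      left_inv := fun x => rfl
      right_inv := fun x => rfl }

open Classical in
theorem mean_square' [Fintype V] (P : PreDrawing src tgt) (hG : P.Good)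
    (hne : ∀ e, src e ≠ tgt e) (h0 : 0 < P.crossings) :
    ∃ S : E → Prop, 8 * ((crS src tgt S + crS src tgt (fun e => ¬ S e) : ℕ) : ℝ) +
      (∑ e, (onEdge P e : ℝ) ^ 2) / P.crossedEdges / 518400 ≤ 3 * P.crossings := by
  obtain ⟨S, hS⟩ := mean_square P hG hne h0
  refine ⟨S, ?_⟩
  simp only [onEdge_eq P hG hne, P.crossedEdges_eq hG hne]
  exact hS

end drawing

/-- The mean square bound. -/
theorem mean_main (n : ℕ) (G : SimpleGraph (Fin n))
    (P : PreDrawing (fun e : Edge G => e.1.1) (fun e : Edge G => e.1.2)) (hs : P.Simple)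
    (ho : P.crossings = cr G) :
    (cr₂ G : ℝ) ≤ 3 / 8 * cr G -
      1 / 4147200 * ((∑ e, (onEdge P e : ℝ) ^ 2) / P.crossedEdges) := by
  classical
  have hne := edge_ne G
  have hG := P.good_of_optimal hne hs ho
  rcases Nat.eq_zero_or_pos (cr G) with h0 | h0
  · have h1 := P.zero_bound hG (ho.trans h0)
    have h2 := cr₂_le G (fun _ => True)
    rw [h1] at h2
    have h3 : cr₂ G = 0 := by omega
    have h4 : ∀ e : Edge G, onEdge P e = 0 := by
      intro e
      unfold onEdge
      have h5 : P.crossings = 0 := ho.trans h0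
      unfold PreDrawing.crossings at h5
      have h6 : IsEmpty {x : P.X // P.passes x = 2} := by
        rcases Nat.card_eq_zero.1 h5 with h | h
        · exact h
        · exact absurd (inferInstance : Finite {x : P.X // P.passes x = 2}) (not_finite_iff_infinite.2 h)
      have : IsEmpty {x : P.X // P.passes x = 2 ∧ ∃ δ ∈ (P.route e).tail, P.pt δ = x} :=
        ⟨fun x => h6.false ⟨x.1, x.2.1⟩⟩
      exact Nat.card_of_isEmpty
    rw [h3, h0]
    simp [h4]
  · obtain ⟨S, hS⟩ := mean_square' P hG hne (by rw [ho]; exact h0)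
    have h1 : (cr₂ G : ℝ) ≤ ((crS (fun e : Edge G => e.1.1) (fun e : Edge G => e.1.2) S +
        crS (fun e : Edge G => e.1.1) (fun e : Edge G => e.1.2) (fun e => ¬ S e) : ℕ) : ℝ) := by
      exact_mod_cast cr₂_le G S
    rw [ho] at hS
    linarith

end Helper5.NE
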