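import Pool.Agent.Helper27.SG.Main

/-!
# Riesz products of random signs

`phi c v y` is the imaginary part of the product of `1 + i c(v,j) y_j` over all `j`.  It is bounded,
its correlation with a single sign `y_a` is `c(v,a)`, and its correlation with a product of three
different signs is `- c(v,a) c(v,b) c(v,d)`.
-/

set_option linter.unusedSectionVars false

namespace Helper5.NE

open Finset Helper5.CR Helper27.SG

variable {V : Type} [Fintype V] [DecidableEq V]

/-- one factor -/
noncomputable def fac (c : V → ℝ) (j : V) (b : Bool) : ℂ := 1 + ((c j * sg b : ℝ) : ℂ) * Complex.I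

/-- the Riesz product -/
noncomputable def riesz (c : V → ℝ) (y : V → Bool) : ℂ := ∏ j, fac c j (y j)

/-- its imaginary part -/
noncomputable def phi (c : V → ℝ) (y : V → Bool) : ℝ := (riesz c y).im

theorem sum_riesz (c : V → ℝ) (S : Finset V) :
    ∑ y : V → Bool, (∏ j ∈ S, ((sg (y j) : ℝ) : ℂ)) * riesz c y =
      (Fintype.card (V → Bool) : ℂ) * ∏ j ∈ S, ((c j : ℝ) : ℂ) * Complex.I := by
  classical
  have h1 : ∀ y : V → Bool, (∏ j ∈ S, ((sg (y j) : ℝ) : ℂ)) * riesz c y =
      ∏ j, ((if j ∈ S then ((sg (y j) : ℝ) : ℂ) else 1) * fac c j (y j)) := by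
    intro y
    unfold riesz
    rw [Finset.prod_mul_distrib, Finset.prod_ite_mem]
    simp
  rw [Finset.sum_congr rfl (fun y _ => h1 y)]
  have h2 : ∑ y : V → Bool, ∏ j, ((if j ∈ S then ((sg (y j) : ℝ) : ℂ) else 1) * fac c j (y j)) =
      ∏ j, ∑ b : Bool, ((if j ∈ S then ((sg b : ℝ) : ℂ) else 1) * fac c j b) := by
    rw [Finset.prod_univ_sum, Fintype.piFinset_univ]
  rw [h2]
  have h3 : ∀ j, ∑ b : Bool, ((if j ∈ S then ((sg b : ℝ) : ℂ) else 1) * fac c j b) =
      2 * (if j ∈ S then ((c j : ℝ) : ℂ) * Complex.I else 1) := by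
    intro j
    have e1 : sg true = 1 := by simp [sg]
    have e2 : sg false = -1 := by simp [sg]
    rw [Fintype.sum_bool]
    unfold fac
    rw [e1, e2]
    by_cases hj : j ∈ S
    · simp only [if_pos hj]
      push_cast
      ring
    · simp only [if_neg hj]
      push_cast
      ring
  rw [Finset.prod_congr rfl (fun j _ => h3 j), Finset.prod_mul_distrib, Finset.prod_ite_mem]
  simp

theorem sum_phi_one (c : V → ℝ) (a : V) :
    ∑ y : V → Bool, sg (y a) * phi c y = c a * Fintype.card (V → Bool) := by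
  have h := congrArg Complex.im (sum_riesz c {a})
  rw [Complex.im_sum] at h
  simp only [Finset.prod_singleton] at h
  have h1 : ∀ y : V → Bool, (((sg (y a) : ℝ) : ℂ) * riesz c y).im = sg (y a) * phi c y := by
    intro y
    rw [Complex.im_ofReal_mul]; rfl
  rw [Finset.sum_congr rfl (fun y _ => h1 y)] at h
  rw [h]
  have : (Fintype.card (V → Bool) : ℂ) * (((c a : ℝ) : ℂ) * Complex.I) =
      ((c a * Fintype.card (V → Bool) : ℝ) : ℂ) * Complex.I := by push_cast; ring
  rw [this, Complex.im_ofReal_mul, Complex.I_im, mul_one]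

theorem sum_phi_three (c : V → ℝ) {a b d : V} (hab : a ≠ b) (had : a ≠ d) (hbd : b ≠ d) :
    ∑ y : V → Bool, sg (y a) * sg (y b) * sg (y d) * phi c y =
      -(c a * c b * c d) * Fintype.card (V → Bool) := by
  have h := congrArg Complex.im (sum_riesz c {a, b, d})
  rw [Complex.im_sum] at h
  have hp : ∀ f : V → ℂ, ∏ j ∈ ({a, b, d} : Finset V), f j = f a * (f b * f d) := by
    intro f
    rw [Finset.prod_insert (by simp [hab, had]), Finset.prod_insert (by simp [hbd]),
      Finset.prod_singleton]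
  simp only [hp] at h
  have h1 : ∀ y : V → Bool, (((sg (y a) : ℝ) : ℂ) * (((sg (y b) : ℝ) : ℂ) *
      ((sg (y d) : ℝ) : ℂ)) * riesz c y).im = sg (y a) * sg (y b) * sg (y d) * phi c y := by
    intro y
    have : ((sg (y a) : ℝ) : ℂ) * (((sg (y b) : ℝ) : ℂ) * ((sg (y d) : ℝ) : ℂ)) * riesz c y =
        ((sg (y a) * sg (y b) * sg (y d) : ℝ) : ℂ) * riesz c y := by push_cast; ring
    rw [this, Complex.im_ofReal_mul]; rfl
  rw [Finset.sum_congr rfl (fun y _ => h1 y)] at h
  rw [h]
  have : (Fintype.card (V → Bool) : ℂ) * (((c a : ℝ) : ℂ) * Complex.I *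
      (((c b : ℝ) : ℂ) * Complex.I * (((c d : ℝ) : ℂ) * Complex.I))) =
      ((-(c a * c b * c d) * Fintype.card (V → Bool) : ℝ) : ℂ) * Complex.I := by
    have hI : Complex.I * Complex.I = -1 := Complex.I_mul_I
    push_cast
    linear_combination ((Fintype.card (V → Bool) : ℂ) * (c a : ℂ) * (c b : ℂ) * (c d : ℂ) *
      Complex.I) * hI
  rw [this, Complex.im_ofReal_mul, Complex.I_im, mul_one]

theorem normSq_fac (c : V → ℝ) (j : V) (b : Bool) : Complex.normSq (fac c j b) = 1 + c j ^ 2 := by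
  unfold fac
  rw [Complex.normSq_apply]
  have hs : sg b * sg b = 1 := sg_sq b
  simp
  nlinarith

theorem phi_sq_le {c : V → ℝ} (hc : ∑ j, c j ^ 2 ≤ 1 / 4) (y : V → Bool) :
    phi c y ^ 2 ≤ 4 / 3 := by
  have h1 : phi c y ^ 2 ≤ Complex.normSq (riesz c y) := by
    unfold phi
    rw [Complex.normSq_apply]
    nlinarith [mul_self_nonneg (riesz c y).re]
  have h2 : Complex.normSq (riesz c y) = ∏ j, (1 + c j ^ 2) := by
    unfold riesz
    rw [map_prod]
    exact Finset.prod_congr rfl fun j _ => normSq_fac c j _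
  have h3 : ∏ j, (1 + c j ^ 2) ≤ Real.exp (∑ j, c j ^ 2) := by
    rw [Real.exp_sum]
    apply Finset.prod_le_prod
    · intro j _; positivity
    · intro j _
      have := Real.add_one_le_exp (c j ^ 2)
      linarith
  have h4 : Real.exp (∑ j, c j ^ 2) ≤ Real.exp (1 / 4) := Real.exp_le_exp.2 hc
  have h5 : Real.exp (1 / 4) ≤ 4 / 3 := by
    have h6 := Real.add_one_le_exp (-(1 / 4) : ℝ)
    have h7 : Real.exp (1 / 4) * Real.exp (-(1 / 4)) = 1 := by
      rw [← Real.exp_add]; simp
    have h8 := Real.exp_pos (1 / 4)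
    nlinarith
  linarith

end Helper5.NE
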