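import Pool.Agent.Helper5.NE.Main

/-!
# The square function bound: summing over the crossings
-/

set_option linter.unusedSectionVars false

namespace Helper5.NE

open Finset Helper5.CR Helper27.SG

section
variable {V E X : Type} [Fintype V] [DecidableEq V] [Fintype E] [DecidableEq E] [Fintype X]
  [DecidableEq X]

/-- indicator -/
def dl (a v : V) : ℤ := if a = v then 1 else 0

/-- the crossing `x` counts `+1` for two ends of different edges and `-1` for the two ends of one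
edge -/
def kap (C : CSys V E X) (x : X) (u v : V) : ℤ :=
  dl (C.src (C.e₁ x)) u * dl (C.src (C.e₂ x)) v + dl (C.src (C.e₂ x)) u * dl (C.src (C.e₁ x)) v +
  (dl (C.src (C.e₁ x)) u * dl (C.tgt (C.e₂ x)) v + dl (C.tgt (C.e₂ x)) u * dl (C.src (C.e₁ x)) v) +
  (dl (C.tgt (C.e₁ x)) u * dl (C.src (C.e₂ x)) v + dl (C.src (C.e₂ x)) u * dl (C.tgt (C.e₁ x)) v) +
  (dl (C.tgt (C.e₁ x)) u * dl (C.tgt (C.e₂ x)) v + dl (C.tgt (C.e₂ x)) u * dl (C.tgt (C.e₁ x)) v) -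
  (dl (C.src (C.e₁ x)) u * dl (C.tgt (C.e₁ x)) v + dl (C.tgt (C.e₁ x)) u * dl (C.src (C.e₁ x)) v) -
  (dl (C.src (C.e₂ x)) u * dl (C.tgt (C.e₂ x)) v + dl (C.tgt (C.e₂ x)) u * dl (C.src (C.e₂ x)) v)

/-- the interaction of two vertices -/
def W (C : CSys V E X) (u v : V) : ℤ := ∑ x, kap C x u v

/-- the four ends -/
def en (C : CSys V E X) (x : X) : Fin 4 → V
  | 0 => C.src (C.e₁ x)
  | 1 => C.tgt (C.e₁ x)
  | 2 => C.src (C.e₂ x)
  | 3 => C.tgt (C.e₂ x)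

/-- the other end of the edge -/
def ot (C : CSys V E X) (x : X) : Fin 4 → V
  | 0 => C.tgt (C.e₁ x)
  | 1 => C.src (C.e₁ x)
  | 2 => C.tgt (C.e₂ x)
  | 3 => C.src (C.e₂ x)

/-- first end of the other edge -/
def fa (C : CSys V E X) (x : X) : Fin 4 → V
  | 0 => C.src (C.e₂ x)
  | 1 => C.src (C.e₂ x)
  | 2 => C.src (C.e₁ x)
  | 3 => C.src (C.e₁ x)

/-- second end of the other edge -/
def fb (C : CSys V E X) (x : X) : Fin 4 → V
  | 0 => C.tgt (C.e₂ x)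
  | 1 => C.tgt (C.e₂ x)
  | 2 => C.tgt (C.e₁ x)
  | 3 => C.tgt (C.e₁ x)

/-- the flags at a vertex -/
def fl (C : CSys V E X) (v : V) : Finset (X × Fin 4) := univ.filter (fun y => en C y.1 y.2 = v)

/-- the number of crossings on edges at `v` -/
def rr (C : CSys V E X) (v : V) : ℕ := (fl C v).card

theorem sum_dl (a : V) : ∑ v, dl a v = 1 := by simp [dl]

theorem sum_dl_mul (a : V) (f : V → ℝ) : ∑ v, (dl a v : ℝ) * f v = f a := by
  simp [dl]

theorem sum_dl_dl (a b : V) (f : V → V → ℝ) : ∑ u, ∑ v, ((dl a u * dl b v : ℤ) : ℝ) * f u v = f a b := by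
  have h : ∀ u, ∑ v, ((dl a u * dl b v : ℤ) : ℝ) * f u v = (dl a u : ℝ) * f u b := by
    intro u
    push_cast
    simp only [mul_assoc, ← Finset.mul_sum]
    rw [sum_dl_mul b (f u)]
  rw [Finset.sum_congr rfl (fun u _ => h u)]
  exact sum_dl_mul a (fun u => f u b)

theorem sum_W (C : CSys V E X) (f : V → V → ℝ) :
    ∑ u, ∑ v, (W C u v : ℝ) * f u v = - ∑ x, gv C f x := by
  have h1 : ∀ x, ∑ u, ∑ v, (kap C x u v : ℝ) * f u v = - gv C f x := by
    intro x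
    have e : ∀ u v, (kap C x u v : ℝ) * f u v =
      (((dl (C.src (C.e₁ x)) u * dl (C.src (C.e₂ x)) v : ℤ) : ℝ) * f u v +
      ((dl (C.src (C.e₂ x)) u * dl (C.src (C.e₁ x)) v : ℤ) : ℝ) * f u v) +
      (((dl (C.src (C.e₁ x)) u * dl (C.tgt (C.e₂ x)) v : ℤ) : ℝ) * f u v +
      ((dl (C.tgt (C.e₂ x)) u * dl (C.src (C.e₁ x)) v : ℤ) : ℝ) * f u v) +
      (((dl (C.tgt (C.e₁ x)) u * dl (C.src (C.e₂ x)) v : ℤ) : ℝ) * f u v +
      ((dl (C.src (C.e₂ x)) u * dl (C.tgt (C.e₁ x)) v : ℤ) : ℝ) * f u v) +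
      (((dl (C.tgt (C.e₁ x)) u * dl (C.tgt (C.e₂ x)) v : ℤ) : ℝ) * f u v +
      ((dl (C.tgt (C.e₂ x)) u * dl (C.tgt (C.e₁ x)) v : ℤ) : ℝ) * f u v) -
      (((dl (C.src (C.e₁ x)) u * dl (C.tgt (C.e₁ x)) v : ℤ) : ℝ) * f u v +
      ((dl (C.tgt (C.e₁ x)) u * dl (C.src (C.e₁ x)) v : ℤ) : ℝ) * f u v) -
      (((dl (C.src (C.e₂ x)) u * dl (C.tgt (C.e₂ x)) v : ℤ) : ℝ) * f u v +
      ((dl (C.tgt (C.e₂ x)) u * dl (C.src (C.e₂ x)) v : ℤ) : ℝ) * f u v) := by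
      intro u v
      unfold kap
      push_cast
      ring
    simp only [e, Finset.sum_add_distrib, Finset.sum_sub_distrib, sum_dl_dl]
    unfold gv
    ring
  have h2 : ∀ u v, (W C u v : ℝ) * f u v = ∑ x, (kap C x u v : ℝ) * f u v := by
    intro u v
    unfold W
    push_cast
    rw [Finset.sum_mul]
  simp only [h2]
  rw [← Finset.sum_neg_distrib, ← Finset.sum_congr rfl (fun x _ => h1 x)]
  calc ∑ u, ∑ v, ∑ x, (kap C x u v : ℝ) * f u v = ∑ u, ∑ x, ∑ v, (kap C x u v : ℝ) * f u v :=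
        Finset.sum_congr rfl fun u _ => Finset.sum_comm
    _ = ∑ x, ∑ u, ∑ v, (kap C x u v : ℝ) * f u v := Finset.sum_comm

/-- sums over flags -/
theorem sum_fl (C : CSys V E X) (F : V → X × Fin 4 → ℝ) :
    ∑ x, ∑ i, F (en C x i) (x, i) = ∑ v, ∑ y ∈ fl C v, F v y := by
  have h1 : ∀ v, ∑ y ∈ fl C v, F v y = ∑ y, if en C y.1 y.2 = v then F v y else 0 := by
    intro v
    unfold fl
    rw [Finset.sum_filter]
  rw [Finset.sum_congr rfl (fun v _ => h1 v)]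
  symm
  rw [Finset.sum_comm, ← Finset.univ_product_univ, Finset.sum_product]
  refine Finset.sum_congr rfl fun x _ => Finset.sum_congr rfl fun i _ => ?_
  simp

theorem row_sum (C : CSys V E X) (u : V) : ∑ v, W C u v = rr C u := by
  unfold W
  rw [Finset.sum_comm]
  have h : ∀ x, ∑ v, kap C x u v = ∑ i, dl (en C x i) u := by
    intro x
    unfold kap
    simp only [Finset.sum_add_distrib, Finset.sum_sub_distrib, ← Finset.mul_sum, sum_dl,
      Fin.sum_univ_four, en]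
    ring
  rw [Finset.sum_congr rfl (fun x _ => h x)]
  unfold rr fl
  rw [Finset.card_filter]
  push_cast
  rw [← Finset.univ_product_univ, Finset.sum_product]
  rfl

theorem abs_row_sum (C : CSys V E X) (u : V) : ∑ v, |W C u v| ≤ 3 * rr C u := by
  have h0 : ∀ v, |W C u v| ≤ ∑ x, |kap C x u v| := fun v => Finset.abs_sum_le_sum_abs _ _
  refine (Finset.sum_le_sum fun v _ => h0 v).trans ?_
  rw [Finset.sum_comm]
  have hd : ∀ a v : V, 0 ≤ dl a v := by intro a v; unfold dl; split_ifs <;> norm_num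
  have h : ∀ x, ∑ v, |kap C x u v| ≤ 3 * ∑ i, dl (en C x i) u := by
    intro x
    have h1 : ∀ v, |kap C x u v| ≤
      dl (C.src (C.e₁ x)) u * dl (C.src (C.e₂ x)) v + dl (C.src (C.e₂ x)) u * dl (C.src (C.e₁ x)) v +
      (dl (C.src (C.e₁ x)) u * dl (C.tgt (C.e₂ x)) v + dl (C.tgt (C.e₂ x)) u * dl (C.src (C.e₁ x)) v) +
      (dl (C.tgt (C.e₁ x)) u * dl (C.src (C.e₂ x)) v + dl (C.src (C.e₂ x)) u * dl (C.tgt (C.e₁ x)) v) +
      (dl (C.tgt (C.e₁ x)) u * dl (C.tgt (C.e₂ x)) v + dl (C.tgt (C.e₂ x)) u * dl (C.tgt (C.e₁ x)) v) +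
      (dl (C.src (C.e₁ x)) u * dl (C.tgt (C.e₁ x)) v + dl (C.tgt (C.e₁ x)) u * dl (C.src (C.e₁ x)) v) +
      (dl (C.src (C.e₂ x)) u * dl (C.tgt (C.e₂ x)) v +
        dl (C.tgt (C.e₂ x)) u * dl (C.src (C.e₂ x)) v) := by
      intro v
      have hp : ∀ a b : V, 0 ≤ dl a u * dl b v := fun a b => mul_nonneg (hd _ _) (hd _ _)
      unfold kap
      have p1 := hp (C.src (C.e₁ x)) (C.src (C.e₂ x))
      have p2 := hp (C.src (C.e₂ x)) (C.src (C.e₁ x))
      have p3 := hp (C.src (C.e₁ x)) (C.tgt (C.e₂ x))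
      have p4 := hp (C.tgt (C.e₂ x)) (C.src (C.e₁ x))
      have p5 := hp (C.tgt (C.e₁ x)) (C.src (C.e₂ x))
      have p6 := hp (C.src (C.e₂ x)) (C.tgt (C.e₁ x))
      have p7 := hp (C.tgt (C.e₁ x)) (C.tgt (C.e₂ x))
      have p8 := hp (C.tgt (C.e₂ x)) (C.tgt (C.e₁ x))
      have p9 := hp (C.src (C.e₁ x)) (C.tgt (C.e₁ x))
      have p10 := hp (C.tgt (C.e₁ x)) (C.src (C.e₁ x))
      have p11 := hp (C.src (C.e₂ x)) (C.tgt (C.e₂ x))
      have p12 := hp (C.tgt (C.e₂ x)) (C.src (C.e₂ x))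
      rw [abs_le]
      constructor <;> linarith
    refine (Finset.sum_le_sum fun v _ => h1 v).trans (le_of_eq ?_)
    simp only [Finset.sum_add_distrib, ← Finset.mul_sum, sum_dl, Fin.sum_univ_four, en]
    ring
  refine (Finset.sum_le_sum fun x _ => h x).trans (le_of_eq ?_)
  rw [← Finset.mul_sum]
  congr 1
  unfold rr fl
  rw [Finset.card_filter]
  push_cast
  rw [← Finset.univ_product_univ, Finset.sum_product]
  rfl

/-- the sum of the squares of a row -/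
def qq (C : CSys V E X) (u : V) : ℝ := ∑ v, (W C u v : ℝ) ^ 2

theorem rr_le_qq (C : CSys V E X) (u : V) : (rr C u : ℝ) ≤ qq C u := by
  have h1 : (rr C u : ℤ) ≤ ∑ v, W C u v ^ 2 := by
    rw [← row_sum]
    refine Finset.sum_le_sum fun v _ => ?_
    exact Int.le_self_sq _
  unfold qq
  exact_mod_cast h1

theorem qq_le (C : CSys V E X) (u : V) : qq C u ≤ (3 * rr C u : ℝ) ^ 2 := by
  have h1 : ∑ v, (|W C u v| : ℤ) ^ 2 ≤ (∑ v, |W C u v|) ^ 2 :=
    Finset.sum_sq_le_sq_sum_of_nonneg (fun v _ => abs_nonneg _)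
  have h2 : (∑ v, |W C u v|) ^ 2 ≤ (3 * rr C u : ℤ) ^ 2 :=
    pow_le_pow_left₀ (Finset.sum_nonneg fun v _ => abs_nonneg _) (abs_row_sum C u) 2
  have h3 : ∑ v, W C u v ^ 2 ≤ (3 * rr C u : ℤ) ^ 2 := by
    refine le_trans (le_of_eq ?_) (h1.trans h2)
    exact Finset.sum_congr rfl fun v _ => (sq_abs _).symm
  unfold qq
  exact_mod_cast h3

theorem inj_fl (C : CSys V E X)
    (hu : ∀ e f, C.src e = C.src f → C.tgt e = C.tgt f → e = f)
    (hu' : ∀ e f, C.src e = C.tgt f → C.tgt e = C.src f → False) (v : V)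
    (y z : X × Fin 4) (hy : y ∈ fl C v) (hz : z ∈ fl C v)
    (h1 : ot C y.1 y.2 = ot C z.1 z.2) (h2 : fa C y.1 y.2 = fa C z.1 z.2)
    (h3 : fb C y.1 y.2 = fb C z.1 z.2) : y = z := by
  obtain ⟨x, i⟩ := y
  obtain ⟨x', j⟩ := z
  unfold fl at hy hz
  simp only [mem_filter, mem_univ, true_and] at hy hz
  have h0 : en C x i = en C x' j := hy.trans hz.symm
  have hx : x = x' := by
    fin_cases i <;> fin_cases j <;> simp only [en, ot, fa, fb] at h0 h1 h2 h3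
    · exact C.once _ _ (Or.inl ⟨hu _ _ h0 h1, hu _ _ h2 h3⟩)
    · exact absurd (hu' _ _ h0 h1) id
    · exact C.once _ _ (Or.inr ⟨hu _ _ h0 h1, hu _ _ h2 h3⟩)
    · exact absurd (hu' _ _ h0 h1) id
    · exact absurd (hu' _ _ h1 h0) id
    · exact C.once _ _ (Or.inl ⟨hu _ _ h1 h0, hu _ _ h2 h3⟩)
    · exact absurd (hu' _ _ h1 h0) id
    · exact C.once _ _ (Or.inr ⟨hu _ _ h1 h0, hu _ _ h2 h3⟩)
    · exact C.once _ _ (Or.inr ⟨hu _ _ h2 h3, hu _ _ h0 h1⟩)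
    · exact absurd (hu' _ _ h0 h1) id
    · exact C.once _ _ (Or.inl ⟨hu _ _ h2 h3, hu _ _ h0 h1⟩)
    · exact absurd (hu' _ _ h0 h1) id
    · exact absurd (hu' _ _ h1 h0) id
    · exact C.once _ _ (Or.inr ⟨hu _ _ h2 h3, hu _ _ h1 h0⟩)
    · exact absurd (hu' _ _ h1 h0) id
    · exact C.once _ _ (Or.inl ⟨hu _ _ h2 h3, hu _ _ h1 h0⟩)
  subst hx
  have hi : i = j := by
    have l1 := C.loop (C.e₁ x)
    have l2 := C.loop (C.e₂ x)
    have k1 := C.h1 x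
    have k2 := C.h2 x
    have k3 := C.h3 x
    have k4 := C.h4 x
    fin_cases i <;> fin_cases j <;> simp only [en] at h0 <;> first | rfl | (exfalso; first
      | exact l1 h0 | exact l1 h0.symm | exact l2 h0 | exact l2 h0.symm | exact k1 h0
      | exact k1 h0.symm | exact k2 h0 | exact k2 h0.symm | exact k3 h0 | exact k3 h0.symm
      | exact k4 h0 | exact k4 h0.symm)
  rw [hi]

/-- the third order terms -/
theorem third_le (C : CSys V E X)
    (hu : ∀ e f, C.src e = C.src f → C.tgt e = C.tgt f → e = f)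
    (hu' : ∀ e f, C.src e = C.tgt f → C.tgt e = C.src f → False) (v : V) (c : V → ℝ) :
    (∑ y ∈ fl C v, c (ot C y.1 y.2) * c (fa C y.1 y.2) * c (fb C y.1 y.2)) ^ 2 ≤
      rr C v * (∑ j, c j ^ 2) ^ 3 := by
  refine (sq_sum_le_card_mul_sum_sq).trans ?_
  refine mul_le_mul_of_nonneg_left ?_ (Nat.cast_nonneg _)
  let ι : X × Fin 4 → V × V × V := fun y => (ot C y.1 y.2, fa C y.1 y.2, fb C y.1 y.2)
  let g : V × V × V → ℝ := fun t => (c t.1 * c t.2.1 * c t.2.2) ^ 2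
  have h1 : ∑ y ∈ fl C v, (c (ot C y.1 y.2) * c (fa C y.1 y.2) * c (fb C y.1 y.2)) ^ 2 =
      ∑ t ∈ (fl C v).image ι, g t := by
    rw [Finset.sum_image]
    intro y hy z hz hyz
    simp only [ι, Prod.mk.injEq] at hyz
    exact inj_fl C hu hu' v y z hy hz hyz.1 hyz.2.1 hyz.2.2
  rw [h1]
  have h2 : ∑ t ∈ (fl C v).image ι, g t ≤ ∑ t, g t :=
    Finset.sum_le_sum_of_subset_of_nonneg (Finset.subset_univ _) (fun t _ _ => sq_nonneg _)
  refine h2.trans (le_of_eq ?_)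
  have h3 : ∑ t, g t = ∑ a, ∑ b, ∑ d, c a ^ 2 * (c b ^ 2 * c d ^ 2) := by
    rw [← Finset.univ_product_univ, Finset.sum_product]
    refine Finset.sum_congr rfl fun a _ => ?_
    rw [← Finset.univ_product_univ, Finset.sum_product]
    refine Finset.sum_congr rfl fun b _ => Finset.sum_congr rfl fun d _ => ?_
    simp only [g]
    ring
  rw [h3]
  simp only [← Finset.mul_sum, ← Finset.sum_mul]
  ring

end

end Helper5.NE
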